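import Pool.Agent.Q152.C0.Ident

/-!
# Codes of vectors and normal forms
-/

namespace Pool.Agent.Q152.C0

/-- base 3 code -/
def code (v : V) : ℕ := (v 0).val + 3 * (v 1).val + 9 * (v 2).val + 27 * (v 3).val

/-- the vector with a given code -/
def dec (c : ℕ) : V := fun i => ((c / 3 ^ (i : ℕ) : ℕ) : ZMod 3)

theorem code_lt : ∀ v : V, code v < 81 := by decide +kernel

theorem dec_code : ∀ v : V, dec (code v) = v := by decide +kernel

theorem code_dec : ∀ c < 81, code (dec c) = c := by decide +kernel

theorem code_inj {v w : V} (h : code v = code w) : v = w := by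
  rw [← dec_code v, ← dec_code w, h]

theorem code_zero : code 0 = 0 := by decide +kernel

/-- the span of the first `d` unit vectors -/
def InW (d : ℕ) (v : V) : Prop := ∀ i : Fin 4, d ≤ i.val → v i = 0

instance (d : ℕ) (v : V) : Decidable (InW d v) := by unfold InW; infer_instance

theorem inW_iff {d : ℕ} (hd : d ≤ 4) (v : V) : InW d v ↔ code v < 3 ^ d := by
  revert v
  interval_cases d <;> decide +kernel

theorem inW_mono {d e : ℕ} (h : d ≤ e) {v : V} (hv : InW d v) : InW e v :=
  fun i hi => hv i (h.trans hi)

theorem code_single : ∀ d : Fin 4, code (Pi.single d 1) = 3 ^ (d : ℕ) := by decide +kernel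

/-- the automorphism used for the normal form -/
theorem exists_aut {d : ℕ} (hd : d < 4) {v : V} (hv : ¬ InW d v) :
    ∃ φ : V ≃+ V, (∀ w, InW d w → φ w = w) ∧ code (φ v) = 3 ^ d := by
  unfold InW at hv
  push Not at hv
  obtain ⟨i, hi, hvi⟩ := hv
  set j : Fin 4 := ⟨d, hd⟩ with hj
  -- exchange the coordinates `i` and `j`
  let τ : V ≃+ V :=
    { toFun := fun u k => u (Equiv.swap i j k)
      invFun := fun u k => u (Equiv.swap i j k)
      left_inv := fun u => by funext k; simp
      right_inv := fun u => by funext k; simp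
      map_add' := fun u w => by funext k; simp }
  have hτ : ∀ u k, τ u k = u (Equiv.swap i j k) := fun _ _ => rfl
  set v' : V := τ v with hv'
  have hvj : v' j ≠ 0 := by
    rw [hv', hτ, Equiv.swap_apply_right]
    exact hvi
  set e : V := Pi.single j 1 with he
  have hej : e j = 1 := by rw [he, Pi.single_eq_same]
  have : Fact (Nat.Prime 3) := ⟨by norm_num⟩
  let ψ : V ≃+ V :=
    { toFun := fun u => u + (u j * (v' j)⁻¹) • (e - v')
      invFun := fun u => u + (u j) • (v' - e)
      left_inv := fun u => by
        funext k
        simp only [Pi.add_apply, Pi.smul_apply, Pi.sub_apply, smul_eq_mul, hej]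
        field_simp
        ring
      right_inv := fun u => by
        funext k
        simp only [Pi.add_apply, Pi.smul_apply, Pi.sub_apply, smul_eq_mul, hej]
        field_simp
        ring
      map_add' := fun u w => by
        funext k
        simp only [Pi.add_apply, Pi.smul_apply, Pi.sub_apply, smul_eq_mul]
        ring }
  have hψ : ∀ u, ψ u = u + (u j * (v' j)⁻¹) • (e - v') := fun _ => rfl
  refine ⟨τ.trans ψ, ?_, ?_⟩
  · intro w hw
    have h1 : τ w = w := by
      funext k
      rw [hτ]
      by_cases hki : k = i
      · rw [hki, Equiv.swap_apply_left, hw j le_rfl, hw i hi]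
      · by_cases hkj : k = j
        · rw [hkj, Equiv.swap_apply_right, hw j le_rfl, hw i hi]
        · rw [Equiv.swap_apply_of_ne_of_ne hki hkj]
    rw [AddEquiv.trans_apply, h1, hψ, hw j le_rfl]
    simp
  · have h1 : (τ.trans ψ) v = e := by
      rw [AddEquiv.trans_apply, ← hv', hψ, mul_inv_cancel₀ hvj, one_smul, add_sub_cancel]
    rw [h1, he, code_single]

end Pool.Agent.Q152.C0
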