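import Pool.Agent.Q152.C0.Masks
import Pool.Agent.Q152.C0.Norm

/-!
# The meaning of the bits of a state
-/

set_option maxRecDepth 100000

namespace Pool.Agent.Q152.C0

theorem tb_rot (s A B a b j : ℕ) :
    Nat.testBit (((s &&& A) <<< a) ||| ((s &&& B) >>> b)) j =
      ((decide (a ≤ j) && (Nat.testBit s (j - a) && Nat.testBit A (j - a))) ||
        (Nat.testBit s (j + b) && Nat.testBit B (j + b))) := by
  rw [Nat.testBit_or, Nat.testBit_shiftLeft, Nat.testBit_shiftRight, Nat.testBit_and,
    Nat.testBit_and, add_comm b j]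

theorem tb_chk {A B a b : ℕ} {t : ℕ → Bool} (h : chk A B a b t = true) {j : ℕ} (hj : j < 2268)
    (s : ℕ) : Nat.testBit (((s &&& A) <<< a) ||| ((s &&& B) >>> b)) j =
      Nat.testBit s (if t j then j - a else j + b) := by
  unfold chk at h
  rw [List.all_eq_true] at h
  have h1 := h j (List.mem_range.2 hj)
  rw [tb_rot]
  cases ht : t j
  · rw [ht] at h1
    simp only [Bool.false_eq_true, if_false, Bool.and_eq_true, Bool.or_eq_true,
      Bool.not_eq_true'] at h1
    simp only [Bool.false_eq_true, if_false]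
    rw [h1.1]
    rcases h1.2 with h2 | h2
    · have h3 : ¬ (a ≤ j) := by
        intro h4
        rw [Nat.ble_eq_true_of_le h4] at h2
        exact absurd h2 (by simp)
      simp [h3]
    · simp [h2]
  · rw [ht] at h1
    simp only [if_true, Bool.and_eq_true, Bool.not_eq_true'] at h1
    simp only [if_true]
    have h3 : a ≤ j := Nat.le_of_ble_eq_true h1.1.1
    simp [h1.1.2, h1.2, h3]

theorem nbeq (a b : ℕ) : Nat.beq a b = decide (a = b) := by
  by_cases h : a = b
  · subst h; simp
  · rw [decide_eq_false h]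
    cases h2 : Nat.beq a b
    · rfl
    · exact absurd (Nat.eq_of_beq_eq_true h2) h

/-- the source of a position under translation by the digit `d` at place `p` -/
def sg (p d j : ℕ) : ℕ :=
  if d = 0 then j else if d = 1 then (if j / p % 3 = 2 then j - 2 * p else j + p)
    else (if j / p % 3 = 0 then j + 2 * p else j - p)

theorem sg_block {p : ℕ} (hp : p = 1 ∨ p = 3 ∨ p = 9 ∨ p = 27) (d q c : ℕ)
    (hc : c < 81) : sg p d (81 * q + c) = 81 * q + sg p d c ∧ sg p d c < 81 := by
  unfold sg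
  rcases hp with rfl | rfl | rfl | rfl <;> split_ifs <;> omega

theorem tb_R0 {d : ℕ} (hd : d < 3) (s : ℕ) {j : ℕ} (hj : j < 2268) :
    Nat.testBit (R0 d s) j = Nat.testBit s (sg 1 d j) := by
  interval_cases d
  · rfl
  · rw [R0_one, tb_chk chk10 hj]; simp [sg, nbeq]
  · rw [R0_two, tb_chk chk20 hj]
    simp [sg, nbeq]

theorem tb_R1 {d : ℕ} (hd : d < 3) (s : ℕ) {j : ℕ} (hj : j < 2268) :
    Nat.testBit (R1 d s) j = Nat.testBit s (sg 3 d j) := by
  interval_cases d
  · rfl
  · rw [R1_one, tb_chk chk11 hj]; simp [sg, nbeq]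
  · rw [R1_two, tb_chk chk21 hj]
    by_cases h : j / 3 % 3 = 0 <;> simp [sg, nbeq, h]

theorem tb_R2 {d : ℕ} (hd : d < 3) (s : ℕ) {j : ℕ} (hj : j < 2268) :
    Nat.testBit (R2 d s) j = Nat.testBit s (sg 9 d j) := by
  interval_cases d
  · rfl
  · rw [R2_one, tb_chk chk12 hj]; simp [sg, nbeq]
  · rw [R2_two, tb_chk chk22 hj]
    by_cases h : j / 9 % 3 = 0 <;> simp [sg, nbeq, h]

theorem tb_R3 {d : ℕ} (hd : d < 3) (s : ℕ) {j : ℕ} (hj : j < 2268) :
    Nat.testBit (R3 d s) j = Nat.testBit s (sg 27 d j) := by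
  interval_cases d
  · rfl
  · rw [R3_one, tb_chk chk13 hj]; simp [sg, nbeq]
  · rw [R3_two, tb_chk chk23 hj]
    by_cases h : j / 27 % 3 = 0 <;> simp [sg, nbeq, h]

theorem tb_RP (s : ℕ) {j : ℕ} (hj : j < 2268) :
    Nat.testBit (RP s) j = Nat.testBit s (if j / 81 % 2 = 1 then j - 81 else j + 81) := by
  rw [RP_eq, tb_chk chkP hj]
  simp [nbeq]

theorem sg_code : ∀ x < 81, ∀ w : V,
    sg 27 (x / 27) (sg 9 (x / 9 % 3) (sg 3 (x / 3 % 3) (sg 1 (x % 3) (code w)))) =
      code (w + dec x) := by decide +kernel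

theorem tb_tr {x : ℕ} (hx : x < 81) (s : ℕ) {q : ℕ} (hq : q < 28) (w : V) :
    Nat.testBit (tr x s) (81 * q + code w) = Nat.testBit s (81 * q + code (w + dec x)) := by
  unfold tr
  have hc := code_lt w
  have b0 := sg_block (p := 1) (by simp) (x % 3) q (code w) hc
  have b1 := sg_block (p := 3) (by simp) (x / 3 % 3) q _ b0.2
  have b2 := sg_block (p := 9) (by simp) (x / 9 % 3) q _ b1.2
  have b3 := sg_block (p := 27) (by simp) (x / 27) q _ b2.2
  rw [tb_R0 (by omega) _ (by omega), b0.1, tb_R1 (by omega) _ (by omega), b1.1,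
    tb_R2 (by omega) _ (by omega), b2.1, tb_R3 (by omega) _ (by omega), b3.1, sg_code x hx]

theorem tb_mK {j : ℕ} (hj : j < 2268) : Nat.testBit mK j = decide (j / 162 ≠ 3) := by
  have h := chkK
  rw [List.all_eq_true] at h
  have h1 := h j (List.mem_range.2 hj)
  rw [beq_iff_eq] at h1
  rw [h1]
  by_cases h3 : j / 162 = 3 <;> simp [nbeq, h3]

set_option exponentiation.threshold 3000 in
theorem tb_mK' {j : ℕ} (hj : 2268 ≤ j) : Nat.testBit mK j = false := by
  apply Nat.testBit_lt_two_pow
  have h := mK_lt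
  rw [Nat.blt_eq] at h
  exact lt_of_lt_of_le h (Nat.pow_le_pow_right (by norm_num) hj)

theorem tb_fin (s t : ℕ) {j : ℕ} (hj : j < 2268) :
    Nat.testBit ((s ||| ((t &&& mK) >>> 162)) ||| (((t &&& mK) &&& mL) <<< 2106)) j =
      (Nat.testBit s j || (decide (j / 162 ≠ 2) &&
        Nat.testBit t (if j / 162 = 13 then j - 2106 else j + 162))) := by
  rw [Nat.testBit_or, Nat.testBit_or, Nat.testBit_shiftLeft, Nat.testBit_shiftRight,
    Nat.testBit_and, Nat.testBit_and, Nat.testBit_and]
  have hL : ∀ i, Nat.testBit mL i = decide (i < 162) := by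
    intro i
    rw [mL_eq]
    exact Nat.testBit_two_pow_sub_one 162 i
  rw [hL]
  by_cases h13 : j / 162 = 13
  · have e1 : Nat.testBit mK (162 + j) = false := tb_mK' (by omega)
    have e2 : Nat.testBit mK (j - 2106) = true := by
      rw [tb_mK (by omega)]
      simp only [decide_eq_true_eq, ne_eq]
      omega
    have e3 : (j ≥ 2106) := by omega
    have e4 : j - 2106 < 162 := by omega
    have e5 : j / 162 ≠ 2 := by omega
    rw [if_pos h13]
    simp [e1, e2, e3, e4, e5]
  · rw [if_neg h13]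
    have e3 : ¬ (j ≥ 2106) := by omega
    have e6 : Nat.testBit mK (162 + j) = decide (j / 162 ≠ 2) := by
      rw [tb_mK (by omega)]
      congr 1
      apply propext
      constructor <;> intro h h2 <;> apply h <;> omega
    rw [e6]
    simp only [e3, decide_false, Bool.false_and, Bool.or_false, add_comm 162 j]
    rw [Bool.and_comm]

/-- position of the bit for subsets of size `k`, parity `e`, and minus the sum equal to `w` -/
def pos (k : ℕ) (e : ZMod 2) (w : V) : ℕ := 81 * (2 * ((16 - k) % 14) + e.val) + code w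

theorem tb_step0 {x : ℕ} (hx : x < 81) (s : ℕ) {k : ℕ} (hk : k < 14) (e : ZMod 2) (w : V) :
    Nat.testBit (step0 x s) (pos k e w) = (Nat.testBit s (pos k e w) ||
      (decide (1 ≤ k) && Nat.testBit s (pos (k - 1) e (w + dec x)))) := by
  have hc := code_lt w
  have he : e.val < 2 := ZMod.val_lt e
  rw [step0_eq, tb_fin _ _ (by unfold pos; omega)]
  congr 1
  by_cases hk0 : k = 0
  · subst hk0
    have : pos 0 e w / 162 = 2 := by unfold pos; omega
    simp [this]
  · have h1 : (if pos k e w / 162 = 13 then pos k e w - 2106 else pos k e w + 162) =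
        pos (k - 1) e w := by
      unfold pos
      split_ifs <;> omega
    have h2 : pos k e w / 162 ≠ 2 := by unfold pos; omega
    have h3 : 1 ≤ k := by omega
    rw [h1]
    simp only [h2, h3, ne_eq, not_false_eq_true, decide_true, Bool.true_and]
    unfold pos
    exact tb_tr hx s (by omega) w

theorem val_add_one : ∀ e : ZMod 2, (e + 1).val = 1 - e.val := by decide

theorem tb_step1 {x : ℕ} (hx : x < 81) (s : ℕ) {k : ℕ} (hk : k < 14) (e : ZMod 2) (w : V) :
    Nat.testBit (step1 x s) (pos k e w) = (Nat.testBit s (pos k e w) ||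
      (decide (1 ≤ k) && Nat.testBit s (pos (k - 1) (e + 1) (w + dec x)))) := by
  have hc := code_lt w
  have hc2 := code_lt (w + dec x)
  have he : e.val < 2 := ZMod.val_lt e
  rw [step1_eq, tb_fin _ _ (by unfold pos; omega)]
  congr 1
  by_cases hk0 : k = 0
  · subst hk0
    have : pos 0 e w / 162 = 2 := by unfold pos; omega
    simp [this]
  · have h1 : (if pos k e w / 162 = 13 then pos k e w - 2106 else pos k e w + 162) =
        pos (k - 1) e w := by
      unfold pos
      split_ifs <;> omega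
    have h2 : pos k e w / 162 ≠ 2 := by unfold pos; omega
    have h3 : 1 ≤ k := by omega
    rw [h1]
    simp only [h2, h3, ne_eq, not_false_eq_true, decide_true, Bool.true_and]
    have h4 : Nat.testBit (tr x (RP s)) (pos (k - 1) e w) =
        Nat.testBit (RP s) (pos (k - 1) e (w + dec x)) := by
      unfold pos
      exact tb_tr hx (RP s) (by omega) w
    rw [h4, tb_RP _ (by unfold pos; omega)]
    congr 1
    have hev : (e + 1).val = 1 - e.val := val_add_one e
    unfold pos
    rw [hev]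
    split_ifs <;> omega

/-- the state `s` describes the subsets with at most 13 elements of the sequence `p` -/
def Rep (s : ℕ) (p : Multiset G) : Prop :=
  ∀ k < 14, ∀ (e : ZMod 2) (w : V), Nat.testBit s (pos k e w) = true ↔
    ∃ T ≤ p, T.card = k ∧ T.sum = (-w, e)

theorem le_cons_iff (T : Multiset G) (a : G) (p : Multiset G) :
    T ≤ a ::ₘ p ↔ T ≤ p ∨ ∃ T' ≤ p, T = a ::ₘ T' := by
  rw [← Multiset.mem_powerset, Multiset.powerset_cons, Multiset.mem_add, Multiset.mem_powerset,
    Multiset.mem_map]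
  simp only [Multiset.mem_powerset]
  constructor
  · rintro (h | ⟨T', h, rfl⟩)
    · exact Or.inl h
    · exact Or.inr ⟨T', h, rfl⟩
  · rintro (h | ⟨T', h, rfl⟩)
    · exact Or.inl h
    · exact Or.inr ⟨T', h, rfl⟩

theorem Rep.cons0 {s : ℕ} {p : Multiset G} (h : Rep s p) {x : ℕ} (hx : x < 81) :
    Rep (step0 x s) ((dec x, 0) ::ₘ p) := by
  intro k hk e w
  rw [tb_step0 hx s hk, Bool.or_eq_true, Bool.and_eq_true, decide_eq_true_eq, h k hk]
  constructor
  · rintro (⟨T, h1, h2, h3⟩ | ⟨h1, h2⟩)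
    · exact ⟨T, (le_cons_iff _ _ _).2 (Or.inl h1), h2, h3⟩
    · rw [h (k - 1) (by omega)] at h2
      obtain ⟨T, h3, h4, h5⟩ := h2
      refine ⟨(dec x, 0) ::ₘ T, (le_cons_iff _ _ _).2 (Or.inr ⟨T, h3, rfl⟩), ?_, ?_⟩
      · rw [Multiset.card_cons, h4]; omega
      · rw [Multiset.sum_cons, h5, Prod.mk_add_mk]
        congr 1
        · abel
        · rw [zero_add]
  · rintro ⟨T, h1, h2, h3⟩
    rcases (le_cons_iff _ _ _).1 h1 with h4 | ⟨T', h4, rfl⟩
    · exact Or.inl ⟨T, h4, h2, h3⟩
    · right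
      rw [Multiset.card_cons] at h2
      refine ⟨by omega, ?_⟩
      rw [h (k - 1) (by omega)]
      refine ⟨T', h4, by omega, ?_⟩
      rw [Multiset.sum_cons] at h3
      have e1 := congrArg Prod.fst h3
      have e2 := congrArg Prod.snd h3
      simp only [Prod.fst_add, Prod.snd_add, zero_add] at e1 e2
      apply Prod.ext
      · simp only
        rw [neg_add, ← e1]; abel
      · exact e2

theorem Rep.cons1 {s : ℕ} {p : Multiset G} (h : Rep s p) {x : ℕ} (hx : x < 81) :
    Rep (step1 x s) ((dec x, 1) ::ₘ p) := by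
  intro k hk e w
  rw [tb_step1 hx s hk, Bool.or_eq_true, Bool.and_eq_true, decide_eq_true_eq, h k hk]
  have h11 : ∀ e : ZMod 2, 1 + (e + 1) = e := by decide
  constructor
  · rintro (⟨T, h1, h2, h3⟩ | ⟨h1, h2⟩)
    · exact ⟨T, (le_cons_iff _ _ _).2 (Or.inl h1), h2, h3⟩
    · rw [h (k - 1) (by omega)] at h2
      obtain ⟨T, h3, h4, h5⟩ := h2
      refine ⟨(dec x, 1) ::ₘ T, (le_cons_iff _ _ _).2 (Or.inr ⟨T, h3, rfl⟩), ?_, ?_⟩
      · rw [Multiset.card_cons, h4]; omega
      · rw [Multiset.sum_cons, h5, Prod.mk_add_mk, h11]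
        congr 1
        abel
  · rintro ⟨T, h1, h2, h3⟩
    rcases (le_cons_iff _ _ _).1 h1 with h4 | ⟨T', h4, rfl⟩
    · exact Or.inl ⟨T, h4, h2, h3⟩
    · right
      rw [Multiset.card_cons] at h2
      refine ⟨by omega, ?_⟩
      rw [h (k - 1) (by omega)]
      refine ⟨T', h4, by omega, ?_⟩
      rw [Multiset.sum_cons] at h3
      have e1 := congrArg Prod.fst h3
      have e2 := congrArg Prod.snd h3
      simp only [Prod.fst_add, Prod.snd_add] at e1 e2
      apply Prod.ext
      · simp only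
        rw [neg_add, ← e1]; abel
      · simp only
        rw [← e2]
        have : ∀ a : ZMod 2, a = 1 + a + 1 := by decide
        exact this _

end Pool.Agent.Q152.C0
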