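import Pool.Agent.Q152.C0.Search

/-!
# Zero-sum sequences of length 15 and 17
-/

set_option maxRecDepth 100000

namespace Pool.Agent.Q152.C0

/-! ## Certificates over the natural numbers -/

/-- weight -/
def wn (L : List (ℕ × ℕ × ℕ)) (l j : ℕ) : ℕ :=
  (L.map (fun t => t.2.2 * (l.choose t.1 * j.choose t.2.1))).sum

/-- symmetrised weight -/
def WN (L : List (ℕ × ℕ × ℕ)) (N b l j : ℕ) : ℕ :=
  2 ^ l * wn L l j + 2 ^ (N - l) * wn L (N - l) (b - j)

theorem wn_cast (L : List (ℕ × ℕ × ℕ)) (l j : ℕ) : ((wn L l j : ℕ) : ZMod 3) = wt L l j := by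
  induction L with
  | nil => simp [wn, wt]
  | cons t L ih =>
    simp only [wn, wt, List.map_cons, List.sum_cons] at ih ⊢
    push_cast
    push_cast at ih
    rw [ih]

theorem WW_eq_zero_iff (L : List (ℕ × ℕ × ℕ)) (N b l j : ℕ) :
    WW L N b l j = 0 ↔ WN L N b l j % 3 = 0 := by
  have h : ((WN L N b l j : ℕ) : ZMod 3) = WW L N b l j := by
    unfold WN WW
    push_cast
    rw [wn_cast, wn_cast]
    have : (2 : ZMod 3) = -1 := by decide
    rw [this]
  rw [← h, ZMod.natCast_eq_zero_iff]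
  exact Nat.dvd_iff_mod_eq_zero

/-- the check of a certificate: all types allowed by `ok` have weight zero, except those allowed
by `tg` and their complements -/
def chkC (N b : ℕ) (ok : ℕ → ℕ → Bool) (L : List (ℕ × ℕ × ℕ)) (tg : ℕ → ℕ → Bool) : Bool :=
  (L.all fun t => decide (t.1 + t.2.1 + 9 ≤ N)) && decide (WN L N b 0 0 % 3 ≠ 0) &&
  (List.range N).all fun c => (List.range (b + 1)).all fun j =>
    !(decide (0 < c) && decide (j ≤ c) && decide (c + b ≤ N + j) && ok c j) ||
    decide (WN L N b c j % 3 = 0) || tg c j || tg (N - c) (b - j)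

theorem use_cert {N b : ℕ} {ok : ℕ → ℕ → Bool} {R : Multiset G} (h1 : R.card = N)
    (h2 : R.sum.1 = 0) (h3 : nB R = b)
    (hok : ∀ T ≤ R, 0 < T.card → T.card < N → T.sum.1 = 0 → ok T.card (nB T) = true)
    {L : List (ℕ × ℕ × ℕ)} {tg : ℕ → ℕ → Bool} (h : chkC N b ok L tg = true) :
    ∃ T ≤ R, 0 < T.card ∧ T.card < N ∧ T.sum.1 = 0 ∧ tg T.card (nB T) = true := by
  unfold chkC at h
  rw [Bool.and_eq_true, Bool.and_eq_true, List.all_eq_true, List.all_eq_true,
    decide_eq_true_eq] at h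
  obtain ⟨⟨hL, hW0⟩, hall⟩ := h
  obtain ⟨T, hT, hT0, hT1, hT2, hT3⟩ := cert R h2 L (fun t ht => by
    rw [h1]; exact of_decide_eq_true (hL t ht)) (by
    rw [h1, h3, Ne, WW_eq_zero_iff]; exact hW0)
  rw [h1] at hT1 hT3
  rw [h3, Ne, WW_eq_zero_iff] at hT3
  have hj1 : nB T ≤ T.card := nB_le_card T
  have hj2 : nB T ≤ b := by rw [← h3]; exact nB_mono hT
  have hsub := nB_sub hT
  have hcs : (R - T).card = R.card - T.card := Multiset.card_sub hT
  have hj3 : T.card + b ≤ N + nB T := by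
    have := nB_le_card (R - T)
    rw [hsub, hcs, h1, h3] at this
    omega
  have h4 := hall T.card (List.mem_range.2 hT1)
  rw [List.all_eq_true] at h4
  have h5 := h4 (nB T) (List.mem_range.2 (by omega))
  have h6 := hok T hT hT0 hT1 hT2
  simp only [hT0, hj1, hj3, h6, hT3, decide_true, decide_false, Bool.and_true, Bool.not_true,
    Bool.false_or, Bool.or_eq_true] at h5
  rcases h5 with h5 | h5
  · exact ⟨T, hT, hT0, hT1, hT2, h5⟩
  · refine ⟨R - T, Multiset.sub_le_self R T, by omega, by omega, ?_, ?_⟩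
    · have h7 : (R - T).sum.1 + T.sum.1 = 0 := by
        rw [← Prod.fst_add, ← Multiset.sum_add, Multiset.sub_add_cancel hT, h2]
      rwa [hT2, add_zero] at h7
    · rw [hcs, hsub, h1, h3]; exact h5

/-! ## Decomposition by labels -/

theorem lab_cases : ∀ e : ZMod 2, e = 0 ∨ e = 1 := by decide

theorem decomp (R : Multiset G) : ∃ A B : Multiset V, R = fam false A + fam true B ∧
    B.card = nB R ∧ A.card + nB R = R.card := by
  induction R using Multiset.induction with
  | empty => exact ⟨0, 0, by simp [fam], by simp [nB], by simp [nB]⟩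
  | cons g R ih =>
    obtain ⟨A, B, h1, h2, h3⟩ := ih
    rcases lab_cases g.2 with h | h
    · refine ⟨g.1 ::ₘ A, B, ?_, ?_, ?_⟩
      · have : fam false (g.1 ::ₘ A) = g ::ₘ fam false A := by
          unfold fam
          rw [Multiset.map_cons]
          congr 1
          exact Prod.ext rfl h.symm
        rw [this, h1, Multiset.cons_add]
      · rw [nB_cons, h, h2]; simp
      · rw [nB_cons, h, Multiset.card_cons, Multiset.card_cons]
        simp
        omega
    · refine ⟨A, g.1 ::ₘ B, ?_, ?_, ?_⟩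
      · have : fam true (g.1 ::ₘ B) = g ::ₘ fam true B := by
          unfold fam
          rw [Multiset.map_cons]
          congr 1
          exact Prod.ext rfl h.symm
        rw [this, h1, Multiset.add_cons]
      · rw [nB_cons, h, Multiset.card_cons, h2]; simp
      · rw [nB_cons, h, Multiset.card_cons]
        simp
        omega

theorem nB_fam (e : Bool) (M : Multiset V) : nB (fam e M) = cond e M.card 0 := by
  induction M using Multiset.induction with
  | empty => cases e <;> rfl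
  | cons a M ih =>
    have : fam e (a ::ₘ M) = (a, lab e) ::ₘ fam e M := by simp [fam]
    rw [this, nB_cons, ih]
    cases e
    · simp [lab]
    · simp [lab]

/-! ## The reduction -/

/-- what is known about the type (number of elements, number of labels one) of a proper block of
the complement of a shortest odd block with `l` elements, in a sequence with `n` elements -/
def okT (n l : ℕ) (c j : ℕ) : Bool :=
  cond (decide (j % 2 = 1)) (decide (l ≤ c ∧ 7 ≤ c + l ∧ c + l + 7 ≤ n))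
    (decide (7 ≤ c ∧ c + 7 ≤ n ∧ c + 2 * l ≤ n))

theorem sum_eq_iff (T : Multiset G) (h : T.sum.1 = 0) :
    (nB T % 2 = 1 → T.sum = (0, 1)) ∧ (nB T % 2 = 0 → T.sum = 0) := by
  have h2 := sum_snd T
  constructor
  · intro h3
    refine Prod.ext h ?_
    rw [h2]
    have : nB T = 2 * (nB T / 2) + 1 := by omega
    rw [this]
    push_cast
    have h4 : (2 : ZMod 2) = 0 := rfl
    rw [h4]; simp
  · intro h3
    refine Prod.ext h ?_
    rw [h2]
    have : nB T = 2 * (nB T / 2) := by omega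
    rw [this]
    push_cast
    have h4 : (2 : ZMod 2) = 0 := rfl
    rw [h4]; simp

theorem nB_odd {T : Multiset G} (h : T.sum = (0, 1)) : nB T % 2 = 1 := by
  rcases Nat.mod_two_eq_zero_or_one (nB T) with h1 | h1
  · have h2 := (sum_eq_iff T (by rw [h])).2 h1
    rw [h] at h2
    exact absurd (congrArg Prod.snd h2) (by decide)
  · exact h1

theorem nB_even {T : Multiset G} (h : T.sum = 0) : nB T % 2 = 0 := by
  rcases Nat.mod_two_eq_zero_or_one (nB T) with h1 | h1
  · exact h1
  · have h2 := (sum_eq_iff T (by rw [h]; rfl)).1 h1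
    rw [h] at h2
    exact absurd (congrArg Prod.snd h2) (by decide)

theorem sub_sum {S T : Multiset G} (h : T ≤ S) : (S - T).sum + T.sum = S.sum := by
  rw [← Multiset.sum_add, Multiset.sub_add_cancel h]

theorem one_add_one : ((0 : V), (1 : ZMod 2)) + (0, 1) = 0 := by
  refine Prod.ext ?_ ?_
  · simp
  · rfl

theorem eq_of_add {a : G} (h : a + (0, 1) = 0) : a = (0, 1) := by
  have h1 : a + (0, 1) = (0, 1) + (0, 1) := by rw [h, one_add_one]
  exact add_right_cancel h1

theorem reduce {n : ℕ} {S : Multiset G} (hS : S.card = n) (h0 : S.sum = 0)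
    (hfree : ∀ T ≤ S, 0 < T.card → T.card ≤ 6 → T.sum ≠ 0) {m : ℕ}
    (hodd : ∃ T ≤ S, T.card ≤ m ∧ T.sum = (0, 1)) :
    ∃ l R, 1 ≤ l ∧ l ≤ m ∧ R ≤ S ∧ R.card + l = n ∧ R.sum = (0, 1) ∧
      nB R ≤ nB S ∧ nB S ≤ nB R + l ∧ nB R % 2 = 1 ∧
      (∀ T ≤ R, 0 < T.card → T.card < R.card → T.sum.1 = 0 → okT n l T.card (nB T) = true) := by
  classical
  have hex : ∃ k, ∃ T ≤ S, T.card = k ∧ T.sum = (0, 1) := by
    obtain ⟨T, h1, _, h3⟩ := hodd
    exact ⟨T.card, T, h1, rfl, h3⟩
  set l := Nat.find hex with hl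
  obtain ⟨T0, hT0, hT0c, hT0s⟩ := Nat.find_spec hex
  have hmin : ∀ T ≤ S, T.sum = (0, 1) → l ≤ T.card := by
    intro T hT hs
    exact Nat.find_min' hex ⟨T, hT, rfl, hs⟩
  have hlm : l ≤ m := by
    obtain ⟨T, h1, h2, h3⟩ := hodd
    exact (hmin T h1 h3).trans h2
  have hl1 : 1 ≤ l := by
    rw [Nat.one_le_iff_ne_zero]
    intro h
    have h1 : T0 = 0 := by
      rw [← Multiset.card_eq_zero, hT0c, ← hl, h]
    rw [h1, Multiset.sum_zero] at hT0s
    exact absurd (congrArg Prod.snd hT0s) (by decide)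
  rw [← hl] at hT0c
  set R := S - T0 with hR
  have hRS : R ≤ S := Multiset.sub_le_self S T0
  have hRT : R + T0 = S := Multiset.sub_add_cancel hT0
  have hRc : R.card + l = n := by
    rw [← hT0c, ← Multiset.card_add, hRT, hS]
  have hRs : R.sum = (0, 1) := by
    have h1 := sub_sum hT0
    rw [hT0s, h0] at h1
    exact eq_of_add h1
  have hnB : nB R + nB T0 = nB S := by rw [← nB_add, hRT]
  have hT0B := nB_le_card T0
  refine ⟨l, R, hl1, hlm, hRS, hRc, hRs, by omega, by omega, nB_odd hRs, ?_⟩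
  intro T hT hTc hTc2 hTs
  have hTS : T ≤ S := hT.trans hRS
  have hRTc : (R - T).card = R.card - T.card := Multiset.card_sub hT
  unfold okT
  rcases Nat.mod_two_eq_zero_or_one (nB T) with hpar | hpar
  · have h1 := (sum_eq_iff T hTs).2 hpar
    have h2 : ¬ (nB T % 2 = 1) := by omega
    simp only [h2, decide_false, cond_false, decide_eq_true_eq]
    refine ⟨?_, ?_, ?_⟩
    · by_contra hcon
      exact hfree T hTS hTc (by omega) h1
    · by_contra hcon
      have h3 := sub_sum hTS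
      rw [h1, h0, add_zero] at h3
      have h4 : (S - T).card = S.card - T.card := Multiset.card_sub hTS
      exact hfree (S - T) (Multiset.sub_le_self S T) (by omega) (by omega) h3
    · have h3 := sub_sum hT
      rw [h1, hRs, add_zero] at h3
      have h4 := hmin (R - T) ((Multiset.sub_le_self R T).trans hRS) h3
      omega
  · have h1 := (sum_eq_iff T hTs).1 hpar
    simp only [hpar, decide_true, cond_true, decide_eq_true_eq]
    have h5 : T + T0 ≤ S := by
      rw [← hRT]; exact add_le_add_left hT T0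
    refine ⟨hmin T hTS h1, ?_, ?_⟩
    · by_contra hcon
      refine hfree (T + T0) h5 ?_ ?_ ?_
      · rw [Multiset.card_add]; omega
      · rw [Multiset.card_add]; omega
      · rw [Multiset.sum_add, h1, hT0s]; exact one_add_one
    · by_contra hcon
      have h3 := sub_sum hT
      rw [h1, hRs] at h3
      have h6 : (R - T).sum = 0 := by
        have h7 : (R - T).sum + (0, 1) = 0 + (0, 1) := by rw [h3, zero_add]
        exact add_right_cancel h7
      exact hfree (R - T) ((Multiset.sub_le_self R T).trans hRS) (by omega) (by omega) h6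

/-- no short odd blocks: Lemma U -/
theorem no_odd {n : ℕ} (hn : 14 ≤ n) (hn' : n ≤ 17) {S : Multiset G} (hS : S.card = n)
    (h0 : S.sum = 0) (hfree : ∀ T ≤ S, 0 < T.card → T.card ≤ 6 → T.sum ≠ 0) :
    (∀ T ≤ S, T.card ≤ 5 → T.sum ≠ (0, 1)) → n ≤ 14 := by
  intro hno
  by_contra hcon
  obtain ⟨S', hS', hS'c⟩ := exists_sub_card S (n := 14) (by omega)
  obtain ⟨T1, hT1, hT1c, hT1s⟩ := lemmaU (S'.map Prod.fst) (by rw [Multiset.card_map, hS'c])
  obtain ⟨T, hT, hTm⟩ := le_map_lift Prod.fst S' T1 hT1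
  have hTS := hT.trans hS'
  have hTc : T.card = T1.card := by rw [← hTm, Multiset.card_map]
  have hTs : T.sum.1 = 0 := by
    rw [← hT1s, ← hTm]
    exact map_multiset_sum (AddMonoidHom.fst V (ZMod 2)) T
  have key : ∀ U ≤ S, 0 < U.card → U.card ≤ 5 → U.sum.1 ≠ 0 := by
    intro U hU hU0 hU5 hUs
    rcases Nat.mod_two_eq_zero_or_one (nB U) with hpar | hpar
    · exact hfree U hU hU0 (by omega) ((sum_eq_iff U hUs).2 hpar)
    · exact hno U hU hU5 ((sum_eq_iff U hUs).1 hpar)
  have hcases : (0 < T.card ∧ T.card ≤ 5) ∨ (12 ≤ T.card ∧ T.card ≤ 14) := by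
    rw [hTc]
    simp only [FU, List.mem_cons, List.not_mem_nil, or_false] at hT1c
    omega
  rcases hcases with ⟨h1, h2⟩ | ⟨h1, h2⟩
  · exact key T hTS h1 h2 hTs
  · have h3 : (S - T).card = S.card - T.card := Multiset.card_sub hTS
    refine key (S - T) (Multiset.sub_le_self S T) (by omega) (by omega) ?_
    have h4 := congrArg Prod.fst (sub_sum hTS)
    rw [Prod.fst_add, hTs, add_zero, h0] at h4
    exact h4

/-! ## Certificates used in the proof -/

/-- no target -/
def tg0 (_ _ : ℕ) : Bool := false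
/-- target: five labels one -/
def tg5 (c j : ℕ) : Bool := decide (c = 5 ∧ j = 5)
/-- target: five labels one and at most one label zero -/
def tg56 (c j : ℕ) : Bool := decide ((c = 5 ∨ c = 6) ∧ j = 5)

/-- types of blocks of the whole sequence of length 15 -/
def okS (c j : ℕ) : Bool := decide (j % 2 = 1 ∨ (7 ≤ c ∧ c + 7 ≤ 15))

theorem c15_1 : ∀ b < 15, b % 2 = 1 → chkC 14 b (okT 15 1) [(0, 0, 1), (4, 0, 1)] tg0 = true := by
  decide +kernel
theorem c15_3 : ∀ b < 13, b % 2 = 1 → chkC 12 b (okT 15 3) [(3, 0, 1)] tg0 = true := by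
  decide +kernel
theorem c15_4 : ∀ b < 12, b % 2 = 1 → chkC 11 b (okT 15 4) [(1, 0, 1)] tg0 = true := by
  decide +kernel
theorem c15_5 : ∀ b < 11, b % 2 = 1 → chkC 10 b (okT 15 5) [(0, 0, 1)] tg0 = true := by
  decide +kernel
theorem c15_2_9 : chkC 13 9 (okT 15 2) [(0, 1, 1), (0, 3, 2), (4, 0, 2)] tg0 = true := by
  decide +kernel
theorem c15_2_11 : chkC 13 11 (okT 15 2) [(2, 1, 1), (1, 2, 2)] tg0 = true := by
  decide +kernel
theorem c15_2_13 : chkC 13 13 (okT 15 2) [(1, 0, 2)] tg0 = true := by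
  decide +kernel
theorem c15_2_7 : chkC 13 7 (okT 15 2) [(0, 1, 2), (3, 0, 1), (1, 3, 1)] tg5 = true := by
  decide +kernel
theorem c15_S_2 : chkC 15 2 okS [(1, 0, 2), (0, 1, 1), (2, 1, 1)] tg0 = true := by
  decide +kernel
theorem c15_S_4 : chkC 15 4 okS [(0, 1, 1), (0, 3, 1), (1, 4, 1), (2, 4, 2)] tg0 = true := by
  decide +kernel
theorem c15_S_6 : chkC 15 6 okS [(0, 1, 1), (0, 3, 1), (3, 1, 1), (1, 3, 2), (2, 3, 1)] tg0 = true := by
  decide +kernel
theorem c17_5 : ∀ b < 13, b % 2 = 1 → chkC 12 b (okT 17 5) [(3, 0, 1)] tg0 = true := by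
  decide +kernel
theorem c17_6 : ∀ b < 12, b % 2 = 1 → chkC 11 b (okT 17 6) [(1, 0, 1)] tg0 = true := by
  decide +kernel
theorem c17_2_9 : chkC 15 9 (okT 17 2) [(2, 1, 2), (0, 3, 1), (3, 2, 1), (6, 0, 2), (3, 3, 1)] tg0 = true := by
  decide +kernel
theorem c17_2_11 : chkC 15 11 (okT 17 2) [(0, 3, 2), (2, 3, 2), (6, 0, 2)] tg0 = true := by
  decide +kernel
theorem c17_2_13 : chkC 15 13 (okT 17 2) [(1, 0, 2), (0, 1, 2), (2, 1, 2)] tg0 = true := by
  decide +kernel
theorem c17_2_15 : chkC 15 15 (okT 17 2) [(6, 0, 2)] tg0 = true := by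
  decide +kernel
theorem c17_2_7 : chkC 15 7 (okT 17 2) [(2, 1, 2), (0, 4, 2), (5, 0, 1), (3, 3, 1)] tg5 = true := by
  decide +kernel
theorem c17_3_9 : chkC 14 9 (okT 17 3) [(1, 1, 2), (0, 2, 1), (1, 3, 1), (5, 0, 1)] tg0 = true := by
  decide +kernel
theorem c17_3_11 : chkC 14 11 (okT 17 3) [(1, 3, 1), (5, 0, 1)] tg0 = true := by
  decide +kernel
theorem c17_3_13 : chkC 14 13 (okT 17 3) [(0, 0, 1), (1, 1, 1)] tg0 = true := by
  decide +kernel
theorem c17_3_7 : chkC 14 7 (okT 17 3) [(1, 1, 1), (4, 0, 2), (2, 3, 2)] tg5 = true := by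
  decide +kernel
theorem c17_3_5 : chkC 14 5 (okT 17 3) [(1, 1, 1), (1, 3, 1), (5, 0, 1)] tg56 = true := by
  decide +kernel
theorem c17_4_9 : chkC 13 9 (okT 17 4) [(0, 1, 1), (0, 3, 2), (4, 0, 2)] tg0 = true := by
  decide +kernel
theorem c17_4_11 : chkC 13 11 (okT 17 4) [(2, 1, 1), (1, 2, 2)] tg0 = true := by
  decide +kernel
theorem c17_4_13 : chkC 13 13 (okT 17 4) [(1, 0, 2)] tg0 = true := by
  decide +kernel
theorem c17_4_7 : chkC 13 7 (okT 17 4) [(0, 1, 2), (3, 0, 1), (1, 3, 1)] tg5 = true := by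
  decide +kernel
theorem c17_4_5 : chkC 13 5 (okT 17 4) [(0, 1, 2), (0, 3, 2), (4, 0, 2)] tg56 = true := by
  decide +kernel

end Pool.Agent.Q152.C0
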