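import Pool.Agent.Q152.C0.Main

/-!
# Two sequences without short zero-sum subsequences
-/

set_option maxRecDepth 100000

namespace Pool.Agent.Q152.C0

/-- the state of a list of codes with labels -/
noncomputable def stAll (l : List (ℕ × Bool)) : ℕ := l.foldr (fun g s => stp g.2 g.1 s) st0

/-- the sequence given by a list of codes with labels -/
def seqOf (l : List (ℕ × Bool)) : Multiset G := ↑(l.map (fun g => (dec g.1, lab g.2)))

theorem rep_stAll (l : List (ℕ × Bool)) (h : ∀ g ∈ l, g.1 < 81) : Rep (stAll l) (seqOf l) := by
  induction l with
  | nil => exact rep_st0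
  | cons g l ih =>
    have h1 := ih (fun g' hg' => h g' (by simp [hg']))
    have h2 := h1.stp (h g (by simp)) g.2
    exact h2

/-- check that the sequence has no zero sum subsequence of length 1 to 6 -/
noncomputable def chkE (l : List (ℕ × Bool)) : Bool :=
  (l.all fun g => Nat.blt g.1 81) &&
  (List.range 6).all fun k => !(Nat.testBit (stAll l) (81 * (2 * ((16 - (k + 1)) % 14))))

theorem free_of_chkE {l : List (ℕ × Bool)} (h : chkE l = true) :
    ∀ T ≤ seqOf l, T.sum = 0 → 1 ≤ T.card → ¬ T.card ≤ 6 := by
  unfold chkE at h
  rw [Bool.and_eq_true, List.all_eq_true, List.all_eq_true] at h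
  have hrep := rep_stAll l (fun g hg => by
    have := h.1 g hg
    rwa [Nat.blt_eq] at this)
  intro T hT hs h1 h6
  have h2 := h.2 (T.card - 1) (List.mem_range.2 (by omega))
  have h3 : Nat.testBit (stAll l) (pos T.card 0 0) = true := by
    rw [hrep T.card (by omega)]
    exact ⟨T, hT, rfl, by rw [hs, neg_zero]; rfl⟩
  have h4 : pos T.card 0 0 = 81 * (2 * ((16 - (T.card - 1 + 1)) % 14)) := by
    unfold pos
    rw [code_zero, Nat.sub_add_cancel h1]
    rfl
  rw [← h4, h3] at h2
  exact absurd h2 (by simp)

/-- a zero-sum sequence of length 16 -/
def e16 : List (ℕ × Bool) :=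
  [(1, true), (1, true), (1, true), (1, true), (3, true), (3, true), (9, false), (9, false),
   (27, false), (27, false), (5, false), (14, false), (32, false), (37, false), (37, false),
   (39, false)]

/-- a sequence of length 19 -/
def e19 : List (ℕ × Bool) :=
  [(1, true), (3, true), (3, true), (3, true), (3, true), (3, true), (9, true), (9, true),
   (27, true), (27, true), (70, true), (70, true), (1, false), (21, false), (21, false),
   (45, false), (45, false), (61, false), (61, false)]

theorem e16_chk : chkE e16 = true := by decide +kernel

theorem e19_chk : chkE e19 = true := by decide +kernel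

theorem e16_sum : (seqOf e16).sum = 0 := by decide +kernel

theorem e16_card : (seqOf e16).card = 16 := rfl

theorem e19_card : (seqOf e19).card = 19 := rfl

end Pool.Agent.Q152.C0
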