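import Mathlib

/-!
# Alternating sums over the subsequences of a sequence over `F_3^4 × C_2`

If a function of the subsequence has degree less than the length of the sequence then its
alternating sum over all subsequences vanishes. Applied to the indicator function of the
subsequences whose vector sum is zero (degree at most 8), times a polynomial in the length and the
number of elements with label one.
-/

namespace Pool.Agent.Q152.C0

/-- vectors -/
abbrev V := Fin 4 → ZMod 3

/-- vectors with a label -/
abbrev G := (Fin 4 → ZMod 3) × ZMod 2

/-- the number of elements with label one -/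
def nB (T : Multiset G) : ℕ := T.countP (fun g => g.2 = 1)

theorem nB_zero : nB 0 = 0 := rfl

theorem nB_add (S T : Multiset G) : nB (S + T) = nB S + nB T := by
  simp [nB, Multiset.countP_add]

theorem nB_cons (a : G) (T : Multiset G) : nB (a ::ₘ T) = nB T + if a.2 = 1 then 1 else 0 := by
  simp [nB, Multiset.countP_cons]

theorem nB_le_card (T : Multiset G) : nB T ≤ T.card := Multiset.countP_le_card _ _

theorem nB_sub {S T : Multiset G} (h : T ≤ S) : nB (S - T) = nB S - nB T := by
  have h1 : S - T + T = S := Multiset.sub_add_cancel h
  have h2 := nB_add (S - T) T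
  rw [h1] at h2
  omega

theorem nB_mono {S T : Multiset G} (h : T ≤ S) : nB T ≤ nB S := by
  have h1 : S - T + T = S := Multiset.sub_add_cancel h
  have h2 := nB_add (S - T) T
  rw [h1] at h2
  omega

/-- the label of the sum is the parity of the number of labels one -/
theorem sum_snd (T : Multiset G) : T.sum.2 = (nB T : ZMod 2) := by
  induction T using Multiset.induction with
  | empty => simp [nB_zero]
  | cons a T ih =>
    rw [Multiset.sum_cons, Prod.snd_add, ih, nB_cons]
    have h : ∀ e : ZMod 2, e = 1 ∨ e = 0 := by decide
    rcases h a.2 with h | h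
    · rw [h]; push_cast; simp; ring
    · rw [h]; simp

/-- degree less than `n`: all `n`-fold differences vanish -/
def PD : ℕ → (Multiset G → ZMod 3) → Prop
  | 0, f => ∀ T, f T = 0
  | n + 1, f => ∀ a, PD n (fun T => f (a ::ₘ T) - f T)

theorem PD_zero_fun (n : ℕ) : PD n (fun _ => 0) := by
  induction n with
  | zero => intro _; rfl
  | succ n ih => intro a; simpa using ih

theorem PD_succ {n : ℕ} {f : Multiset G → ZMod 3} (h : PD n f) : PD (n + 1) f := by
  induction n generalizing f with
  | zero =>
    intro a T
    have h1 : ∀ T, f T = 0 := h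
    simp only [h1, sub_zero]
  | succ n ih => intro a; exact ih (h a)

theorem PD_mono {n m : ℕ} (hnm : n ≤ m) {f : Multiset G → ZMod 3} (h : PD n f) : PD m f := by
  induction hnm with
  | refl => exact h
  | step _ ih => exact PD_succ ih

theorem PD_add {n : ℕ} {f g : Multiset G → ZMod 3} (hf : PD n f) (hg : PD n g) :
    PD n (fun T => f T + g T) := by
  induction n generalizing f g with
  | zero =>
    intro T
    have h1 : ∀ T, f T = 0 := hf
    have h2 : ∀ T, g T = 0 := hg
    simp only [h1, h2, add_zero]
  | succ n ih =>
    intro a
    have := ih (hf a) (hg a)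
    convert this using 2
    ring

theorem PD_const_mul {n : ℕ} {f : Multiset G → ZMod 3} (hf : PD n f) (c : ZMod 3) :
    PD n (fun T => c * f T) := by
  induction n generalizing f with
  | zero =>
    intro T
    have h1 : ∀ T, f T = 0 := hf
    simp only [h1, mul_zero]
  | succ n ih =>
    intro a
    have := ih (hf a)
    convert this using 2
    ring

theorem PD_const (c : ZMod 3) : PD 1 (fun _ => c) := by
  intro a T
  simp

theorem PD_shift {n : ℕ} {f : Multiset G → ZMod 3} (hf : PD n f) (a : G) :
    PD n (fun T => f (a ::ₘ T)) := by
  cases n with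
  | zero => intro T; exact hf _
  | succ n =>
    have h := PD_add hf (PD_succ (hf a))
    convert h using 2
    ring

/-- degrees add under multiplication -/
theorem PD_mul : ∀ (n m : ℕ) {f g : Multiset G → ZMod 3}, PD (n + 1) f → PD (m + 1) g →
    PD (n + m + 1) (fun T => f T * g T) := by
  intro n m
  induction hk : n + m using Nat.strong_induction_on generalizing n m with
  | _ k ih =>
    intro f g hf hg a
    subst hk
    -- difference of the product
    have e : (fun T => f (a ::ₘ T) * g (a ::ₘ T) - f T * g T)
        = fun T => (f (a ::ₘ T) - f T) * g T + f (a ::ₘ T) * (g (a ::ₘ T) - g T) := by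
      funext T; ring
    rw [e]
    have h1 : PD (n + m) (fun T => (f (a ::ₘ T) - f T) * g T) := by
      cases n with
      | zero =>
        have h0 : ∀ T, f (a ::ₘ T) - f T = 0 := hf a
        simp only [h0, zero_mul]
        exact PD_zero_fun _
      | succ n =>
        have := ih (n + m) (by omega) n m rfl (hf a) hg
        have e2 : n + 1 + m = n + m + 1 := by ring
        rw [e2]
        exact this
    have h2 : PD (n + m) (fun T => f (a ::ₘ T) * (g (a ::ₘ T) - g T)) := by
      cases m with
      | zero =>
        have h0 : ∀ T, g (a ::ₘ T) - g T = 0 := hg a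
        simp only [h0, mul_zero]
        exact PD_zero_fun _
      | succ m =>
        have := ih (n + m) (by omega) n m rfl (PD_shift hf a) (hg a)
        exact this
    exact PD_add h1 h2

/-- the alternating sum -/
def alt (S : Multiset G) (f : Multiset G → ZMod 3) : ZMod 3 :=
  (S.powerset.map (fun T => (-1) ^ T.card * f T)).sum

theorem alt_cons (a : G) (S : Multiset G) (f : Multiset G → ZMod 3) :
    alt (a ::ₘ S) f = - alt S (fun T => f (a ::ₘ T) - f T) := by
  unfold alt
  rw [Multiset.powerset_cons, Multiset.map_add, Multiset.sum_add, Multiset.map_map,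
    ← Multiset.sum_map_neg', Multiset.map_map, ← Multiset.sum_map_add]
  congr 1
  apply Multiset.map_congr rfl
  intro T _
  simp only [Function.comp, Multiset.card_cons, pow_succ]
  ring

theorem alt_eq_zero {n : ℕ} {f : Multiset G → ZMod 3} (hf : PD n f) (S : Multiset G)
    (hn : n ≤ S.card) : alt S f = 0 := by
  induction S using Multiset.induction generalizing n f with
  | empty =>
    simp only [Multiset.card_zero, Nat.le_zero] at hn
    subst hn
    have h1 : ∀ T, f T = 0 := hf
    simp [alt, h1]
  | cons a S ih =>
    rw [alt_cons]
    rw [Multiset.card_cons] at hn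
    cases n with
    | zero =>
      have h1 : ∀ T, f T = 0 := hf
      rw [ih (n := 0) (f := fun T => f (a ::ₘ T) - f T) (fun T => by simp [h1]) (Nat.zero_le _),
        neg_zero]
    | succ n => rw [ih (hf a) (by omega), neg_zero]

/-- a coordinate of the sum -/
theorem PD_coord (j : Fin 4) : PD 2 (fun T => T.sum.1 j) := by
  intro a b T
  simp [Multiset.sum_cons]

theorem PD_factor (j : Fin 4) : PD 3 (fun T => 1 - (T.sum.1 j) ^ 2) := by
  have h := PD_mul 1 1 (PD_coord j) (PD_coord j)
  have h2 := PD_add (PD_mono (by norm_num : 1 ≤ 3) (PD_const 1)) (PD_const_mul h (-1))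
  convert h2 using 2
  ring

/-- indicator of a zero vector sum -/
def ind (T : Multiset G) : ZMod 3 := if T.sum.1 = 0 then 1 else 0

theorem ind_eq (T : Multiset G) : ind T = (1 - (T.sum.1 0) ^ 2) * (1 - (T.sum.1 1) ^ 2) *
    (1 - (T.sum.1 2) ^ 2) * (1 - (T.sum.1 3) ^ 2) := by
  unfold ind
  have h : ∀ a : ZMod 3, 1 - a ^ 2 = if a = 0 then 1 else 0 := by decide
  rw [h, h, h, h]
  by_cases h0 : T.sum.1 = 0
  · simp [h0]
  · rw [if_neg h0]
    have : ¬ (T.sum.1 0 = 0 ∧ T.sum.1 1 = 0 ∧ T.sum.1 2 = 0 ∧ T.sum.1 3 = 0) := by
      rintro ⟨a, b, c, d⟩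
      apply h0
      funext i
      fin_cases i <;> simp_all
    by_cases a : T.sum.1 0 = 0
    · by_cases b : T.sum.1 1 = 0
      · by_cases c : T.sum.1 2 = 0
        · by_cases d : T.sum.1 3 = 0
          · exact absurd ⟨a, b, c, d⟩ this
          · simp [d]
        · simp [c]
      · simp [b]
    · simp [a]

theorem PD_ind : PD 9 ind := by
  have h := PD_mul 6 2 (PD_mul 4 2 (PD_mul 2 2 (PD_factor 0) (PD_factor 1)) (PD_factor 2))
    (PD_factor 3)
  have e : ind = fun T => (1 - (T.sum.1 0) ^ 2) * (1 - (T.sum.1 1) ^ 2) *
    (1 - (T.sum.1 2) ^ 2) * (1 - (T.sum.1 3) ^ 2) := by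
    funext T; exact ind_eq T
  rw [e]
  exact h

theorem PD_choose (k : ℕ) : PD (k + 1) (fun T => (T.card.choose k : ZMod 3)) := by
  induction k with
  | zero => intro a T; simp
  | succ k ih =>
    intro a
    convert ih using 2 with T
    simp only [Multiset.card_cons, Nat.choose_succ_succ]
    push_cast
    ring

theorem PD_chooseB (m : ℕ) : PD (m + 1) (fun T => ((nB T).choose m : ZMod 3)) := by
  induction m with
  | zero => intro a T; simp
  | succ m ih =>
    intro a
    by_cases h : a.2 = 1
    · convert ih using 2 with T
      simp only [nB_cons, if_pos h, Nat.choose_succ_succ]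
      push_cast
      ring
    · have e : (fun T => ((nB (a ::ₘ T)).choose (m + 1) : ZMod 3) - ((nB T).choose (m + 1) : ZMod 3))
          = fun _ => 0 := by
        funext T
        rw [nB_cons, if_neg h, add_zero, sub_self]
      rw [e]
      exact PD_zero_fun _

/-- the weight: a combination of products of two binomial coefficients -/
def wt (L : List (ℕ × ℕ × ℕ)) (l j : ℕ) : ZMod 3 :=
  (L.map (fun t => (t.2.2 : ZMod 3) * ((l.choose t.1 : ZMod 3) * (j.choose t.2.1 : ZMod 3)))).sum

theorem PD_wt (L : List (ℕ × ℕ × ℕ)) (n : ℕ) (h : ∀ t ∈ L, t.1 + t.2.1 + 1 ≤ n) :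
    PD n (fun T => wt L T.card (nB T)) := by
  induction L with
  | nil =>
    simp only [wt, List.map_nil, List.sum_nil]
    exact PD_zero_fun _
  | cons t L ih =>
    have h1 := PD_const_mul (PD_mul _ _ (PD_choose t.1) (PD_chooseB t.2.1)) (t.2.2 : ZMod 3)
    have h2 := PD_mono (h t (by simp)) h1
    have h3 := ih (fun u hu => h u (by simp [hu]))
    have h4 := PD_add h2 h3
    simpa only [wt, List.map_cons, List.sum_cons] using h4

/-- the symmetrised weight -/
def WW (L : List (ℕ × ℕ × ℕ)) (N b l j : ℕ) : ZMod 3 :=
  (-1) ^ l * wt L l j + (-1) ^ (N - l) * wt L (N - l) (b - j)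

theorem sum_powerset_sub (S : Multiset G) (F : Multiset G → ZMod 3) :
    (S.powerset.map (fun T => F (S - T))).sum = (S.powerset.map F).sum := by
  have h1 : S.powerset.map (fun T => F (S - T)) = (S.antidiagonal.map Prod.fst).map F := by
    rw [Multiset.antidiagonal_eq_map_powerset, Multiset.map_map, Multiset.map_map]
    rfl
  rw [h1, Multiset.antidiagonal_map_fst]

/-- The certificate lemma: a sequence with vector sum zero and at least `9 + (degree of L)` elements
has a proper nonempty subsequence with vector sum zero whose weight does not vanish, provided that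
the weight of the empty sequence does not vanish. -/
theorem cert (S : Multiset G) (h0 : S.sum.1 = 0) (L : List (ℕ × ℕ × ℕ))
    (hL : ∀ t ∈ L, t.1 + t.2.1 + 9 ≤ S.card) (hW : WW L S.card (nB S) 0 0 ≠ 0) :
    ∃ T ≤ S, 0 < T.card ∧ T.card < S.card ∧ T.sum.1 = 0 ∧
      WW L S.card (nB S) T.card (nB T) ≠ 0 := by
  classical
  by_contra hcon
  push Not at hcon
  apply hW
  -- the alternating sum vanishes
  set f : Multiset G → ZMod 3 := fun T => ind T * wt L T.card (nB T) with hf
  have hPD : PD S.card f := by
    rcases Nat.lt_or_ge S.card 9 with h9 | h9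
    · have hL0 : L = [] := by
        rcases L with _ | ⟨t, L⟩
        · rfl
        · have := hL t (by simp)
          omega
      have : f = fun _ => 0 := by
        funext T
        simp [hf, hL0, wt]
      rw [this]
      exact PD_zero_fun _
    · rcases Nat.lt_or_ge 8 S.card with h8 | h8
      · have h1 : PD (S.card - 9 + 1) (fun T => wt L T.card (nB T)) := by
          apply PD_wt
          intro t ht
          have := hL t ht
          omega
        have h2 := PD_mul 8 (S.card - 9) PD_ind h1
        have e : 8 + (S.card - 9) + 1 = S.card := by omega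
        rw [e] at h2
        exact h2
      · omega
  have h1 : alt S f = 0 := alt_eq_zero hPD S le_rfl
  have h2 : (S.powerset.map (fun T => (-1) ^ (S - T).card * f (S - T))).sum = 0 := by
    rw [sum_powerset_sub S (fun T => (-1) ^ T.card * f T)]
    exact h1
  have h3 : (S.powerset.map (fun T => ind T * WW L S.card (nB S) T.card (nB T))).sum = 0 := by
    have e : S.powerset.map (fun T => ind T * WW L S.card (nB S) T.card (nB T)) =
        S.powerset.map (fun T => (-1) ^ T.card * f T + (-1) ^ (S - T).card * f (S - T)) := by
      apply Multiset.map_congr rfl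
      intro T hT
      rw [Multiset.mem_powerset] at hT
      have hc : (S - T).card = S.card - T.card := Multiset.card_sub hT
      have hi : ind (S - T) = ind T := by
        unfold ind
        have hs : (S - T).sum.1 + T.sum.1 = 0 := by
          rw [← Prod.fst_add, ← Multiset.sum_add, Multiset.sub_add_cancel hT, h0]
        have : (S - T).sum.1 = 0 ↔ T.sum.1 = 0 := by
          constructor
          · intro h; rw [h, zero_add] at hs; exact hs
          · intro h; rw [h, add_zero] at hs; exact hs
        simp only [this]
      simp only [hf, hi, hc, nB_sub hT, WW]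
      ring
    rw [e, Multiset.sum_map_add, h2]
    have := h1
    unfold alt at this
    rw [this, add_zero]
  -- split by length
  rw [← Multiset.bind_powerset_len, Multiset.map_bind, Multiset.sum_bind] at h3
  have hval : ∀ k ∈ Multiset.range (S.card + 1),
      (Multiset.map (fun T => ind T * WW L S.card (nB S) T.card (nB T))
        (Multiset.powersetCard k S)).sum = if k = 0 then WW L S.card (nB S) 0 0 else
        if k = S.card then WW L S.card (nB S) S.card (nB S) else 0 := by
    intro k hk
    rw [Multiset.mem_range] at hk
    by_cases hk0 : k = 0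
    · subst hk0
      rw [if_pos rfl, Multiset.powersetCard_zero_left, Multiset.map_singleton,
        Multiset.sum_singleton]
      simp [ind, nB_zero]
    · rw [if_neg hk0]
      by_cases hk1 : k = S.card
      · rw [if_pos hk1]
        have : Multiset.powersetCard k S = {S} := by
          rw [hk1]
          have hle : ({S} : Multiset (Multiset G)) ≤ Multiset.powersetCard S.card S := by
            rw [Multiset.singleton_le, Multiset.mem_powersetCard]
            exact ⟨le_rfl, rfl⟩
          have hc : (Multiset.powersetCard S.card S).card = 1 := by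
            rw [Multiset.card_powersetCard, Nat.choose_self]
          exact (Multiset.eq_of_le_of_card_le hle (by rw [hc]; simp)).symm
        rw [this, Multiset.map_singleton, Multiset.sum_singleton]
        simp [ind, h0]
      · rw [if_neg hk1]
        apply Multiset.sum_eq_zero
        intro x hx
        rw [Multiset.mem_map] at hx
        obtain ⟨T, hT, rfl⟩ := hx
        rw [Multiset.mem_powersetCard] at hT
        obtain ⟨hTS, hTc⟩ := hT
        by_cases hz : T.sum.1 = 0
        · rw [hcon T hTS (by omega) (by omega) hz, mul_zero]
        · simp [ind, hz]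
  rw [Multiset.map_congr rfl hval] at h3
  have hfin : (Multiset.map (fun k => if k = 0 then WW L S.card (nB S) 0 0 else
        if k = S.card then WW L S.card (nB S) S.card (nB S) else 0)
        (Multiset.range (S.card + 1))).sum = ∑ k ∈ Finset.range (S.card + 1),
        (if k = 0 then WW L S.card (nB S) 0 0 else
        if k = S.card then WW L S.card (nB S) S.card (nB S) else 0) := rfl
  rw [hfin] at h3
  have hsym : WW L S.card (nB S) S.card (nB S) = WW L S.card (nB S) 0 0 := by
    unfold WW
    simp
    ring
  by_cases hS : S.card = 0
  · rw [hS] at h3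
    simp at h3
    rw [hS]
    exact h3
  · rw [Finset.sum_range_succ', Finset.sum_eq_single_of_mem (S.card - 1)
      (by rw [Finset.mem_range]; omega)] at h3
    · rw [if_neg (by omega), if_pos (by omega), if_pos rfl, hsym] at h3
      have h5 : ∀ a : ZMod 3, a + a = 0 → a = 0 := by decide
      exact h5 _ h3
    · intro k _ hk
      rw [if_neg (by omega), if_neg (by omega)]

end Pool.Agent.Q152.C0
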