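import Pool.Agent.Q152.C0.Bits

/-!
# Forbidden codes and the loop over the candidates
-/

set_option maxRecDepth 100000

namespace Pool.Agent.Q152.C0

/-- the sequence has a zero sum subsequence with length in `FE`, or a subsequence with vector sum
zero, odd number of labels one, and length in `FO` -/
def Bad (FE FO : List ℕ) (p : Multiset G) : Prop :=
  ∃ T ≤ p, (T.card ∈ FE ∧ T.sum = 0) ∨ (T.card ∈ FO ∧ T.sum = (0, 1))

theorem Bad.mono {FE FO : List ℕ} {p q : Multiset G} (h : p ≤ q) (hp : Bad FE FO p) :
    Bad FE FO q := by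
  obtain ⟨T, h1, h2⟩ := hp
  exact ⟨T, h1.trans h, h2⟩

/-- mask of the positions of the lengths `k - 1`, `k ∈ E`, with parity `par` -/
def mask (E : List ℕ) (par : ℕ) : ℕ :=
  E.foldr (fun k a => ((2 ^ 81 - 1) <<< (162 * ((17 - k) % 14) + 81 * par)) ||| a) 0

theorem tb_mask (E : List ℕ) (par j : ℕ) : Nat.testBit (mask E par) j = true ↔
    ∃ k ∈ E, 162 * ((17 - k) % 14) + 81 * par ≤ j ∧ j < 162 * ((17 - k) % 14) + 81 * par + 81 := by
  induction E with
  | nil => simp [mask]
  | cons k E ih =>
    have e : mask (k :: E) par =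
      ((2 ^ 81 - 1) <<< (162 * ((17 - k) % 14) + 81 * par)) ||| mask E par := rfl
    rw [e, Nat.testBit_or, Bool.or_eq_true, ih, Nat.testBit_shiftLeft,
      Nat.testBit_two_pow_sub_one]
    simp only [List.mem_cons, exists_eq_or_imp, Bool.and_eq_true, decide_eq_true_eq]
    constructor
    · rintro (⟨h1, h2⟩ | h)
      · left; omega
      · exact Or.inr h
    · rintro (⟨h1, h2⟩ | h)
      · left; omega
      · exact Or.inr h

/-- the label -/
def lab (e : Bool) : ZMod 2 := cond e 1 0

theorem tb_fold (y a c : ℕ) : Nat.testBit (y ||| (y >>> a)) c =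
    (Nat.testBit y c || Nat.testBit y (a + c)) := by
  rw [Nat.testBit_or, Nat.testBit_shiftRight]

theorem tb_forb {Ma Mb s c : ℕ} (h : Nat.testBit (forb Ma Mb s) c = true) :
    ∃ b < 14, Nat.testBit ((s &&& Ma) ||| ((s &&& Mb) >>> 81)) (162 * b + c) = true := by
  rw [forb_eq] at h
  generalize ((s &&& Ma) ||| ((s &&& Mb) >>> 81)) = y at h
  simp only [tb_fold, Bool.or_eq_true] at h
  have key : ∀ b j, b < 14 → j = 162 * b + c → Nat.testBit y j = true →
      ∃ b < 14, Nat.testBit y (162 * b + c) = true := by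
    rintro b j hb rfl h
    exact ⟨b, hb, h⟩
  rcases h with (((h | h) | (h | h)) | ((h | h) | (h | h))) |
    (((h | h) | (h | h)) | ((h | h) | (h | h)))
  · exact key 0 _ (by norm_num) (by ring) h
  · exact key 7 _ (by norm_num) (by ring) h
  · exact key 3 _ (by norm_num) (by ring) h
  · exact key 10 _ (by norm_num) (by ring) h
  · exact key 2 _ (by norm_num) (by ring) h
  · exact key 9 _ (by norm_num) (by ring) h
  · exact key 5 _ (by norm_num) (by ring) h
  · exact key 12 _ (by norm_num) (by ring) h
  · exact key 1 _ (by norm_num) (by ring) h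
  · exact key 8 _ (by norm_num) (by ring) h
  · exact key 4 _ (by norm_num) (by ring) h
  · exact key 11 _ (by norm_num) (by ring) h
  · exact key 3 _ (by norm_num) (by ring) h
  · exact key 10 _ (by norm_num) (by ring) h
  · exact key 6 _ (by norm_num) (by ring) h
  · exact key 13 _ (by norm_num) (by ring) h

/-- a forbidden code really gives a forbidden subsequence -/
theorem forb_sound {FE FO : List ℕ} (hFE : ∀ k ∈ FE, 1 ≤ k ∧ k ≤ 14)
    (hFO : ∀ k ∈ FO, 1 ≤ k ∧ k ≤ 14) {s : ℕ} {p : Multiset G} (h : Rep s p) {c : ℕ} (hc : c < 81)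
    {e : Bool} {Ma Mb : ℕ} (hMa : Ma = mask (cond e FO FE) 0) (hMb : Mb = mask (cond e FE FO) 1)
    (hb : Nat.testBit (forb Ma Mb s) c = true) : Bad FE FO ((dec c, lab e) ::ₘ p) := by
  obtain ⟨b, hb14, hb2⟩ := tb_forb hb
  rw [Nat.testBit_or, Nat.testBit_shiftRight, Nat.testBit_and, Nat.testBit_and, Bool.or_eq_true,
    Bool.and_eq_true, Bool.and_eq_true] at hb2
  -- common construction
  have key : ∀ (k : ℕ) (q : ZMod 2), 1 ≤ k → k ≤ 14 → b = (17 - k) % 14 →
      Nat.testBit s (162 * b + 81 * q.val + c) = true →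
      ∃ T ≤ ((dec c, lab e) ::ₘ p), T.card = k ∧ T.sum = (0, lab e + q) := by
    intro k q hk1 hk2 hbk ht
    have e1 : 162 * b + 81 * q.val + c = pos (k - 1) q (dec c) := by
      unfold pos
      rw [code_dec c hc, hbk]
      have : 16 - (k - 1) = 17 - k := by omega
      rw [this]; ring
    rw [e1, h (k - 1) (by omega)] at ht
    obtain ⟨T, h1, h2, h3⟩ := ht
    refine ⟨(dec c, lab e) ::ₘ T, (le_cons_iff _ _ _).2 (Or.inr ⟨T, h1, rfl⟩), ?_, ?_⟩
    · rw [Multiset.card_cons, h2]; omega
    · rw [Multiset.sum_cons, h3, Prod.mk_add_mk, add_neg_cancel]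
  rcases hb2 with ⟨h1, h2⟩ | ⟨h1, h2⟩
  · rw [hMa, tb_mask] at h2
    obtain ⟨k, hk, hk1, hk2⟩ := h2
    have hk3 : 1 ≤ k ∧ k ≤ 14 := by
      cases e
      · exact hFE k hk
      · exact hFO k hk
    obtain ⟨T, hT, hT1, hT2⟩ := key k 0 hk3.1 hk3.2 (by omega) (by
      have : (0 : ZMod 2).val = 0 := rfl
      rw [this, mul_zero, add_zero]; exact h1)
    refine ⟨T, hT, ?_⟩
    cases e
    · left
      refine ⟨by rw [hT1]; exact hk, ?_⟩
      rw [hT2]; rfl
    · right
      refine ⟨by rw [hT1]; exact hk, ?_⟩
      rw [hT2]; rfl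
  · rw [hMb, tb_mask] at h2
    obtain ⟨k, hk, hk1, hk2⟩ := h2
    have hk3 : 1 ≤ k ∧ k ≤ 14 := by
      cases e
      · exact hFO k hk
      · exact hFE k hk
    obtain ⟨T, hT, hT1, hT2⟩ := key k 1 hk3.1 hk3.2 (by omega) (by
      have : (1 : ZMod 2).val = 1 := rfl
      rw [this, mul_one]
      have e2 : 162 * b + 81 + c = 81 + (162 * b + c) := by ring
      rw [e2]; exact h1)
    refine ⟨T, hT, ?_⟩
    cases e
    · right
      refine ⟨by rw [hT1]; exact hk, ?_⟩
      rw [hT2]; rfl
    · left
      refine ⟨by rw [hT1]; exact hk, ?_⟩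
      rw [hT2]; rfl

/-! ## The lowest bit -/

theorem lowbit : ∀ h : ℕ, h ≠ 0 → ∃ g, Nat.testBit h g = true ∧ (∀ i < g, Nat.testBit h i = false) ∧
    ∀ i, Nat.testBit (h &&& (h - 1)) i = (Nat.testBit h i && decide (i ≠ g)) := by
  intro h
  induction h using Nat.strong_induction_on with
  | _ h ih =>
    intro h0
    rcases Nat.even_or_odd' h with ⟨a, rfl | rfl⟩
    · obtain ⟨g, h1, h2, h3⟩ := ih a (by omega) (by omega)
      refine ⟨g + 1, ?_, ?_, ?_⟩
      · rw [Nat.testBit_succ]
        have : 2 * a / 2 = a := by omega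
        rw [this]; exact h1
      · intro i hi
        cases i with
        | zero => simp [Nat.testBit_zero]
        | succ i =>
          rw [Nat.testBit_succ]
          have : 2 * a / 2 = a := by omega
          rw [this]; exact h2 i (by omega)
      · intro i
        rw [Nat.testBit_and]
        cases i with
        | zero => simp [Nat.testBit_zero]
        | succ i =>
          rw [Nat.testBit_succ, Nat.testBit_succ]
          have e1 : 2 * a / 2 = a := by omega
          have e2 : (2 * a - 1) / 2 = a - 1 := by omega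
          rw [e1, e2, ← Nat.testBit_and, h3 i]
          simp
    · refine ⟨0, ?_, ?_, ?_⟩
      · simp [Nat.testBit_zero]
      · intro i hi; omega
      · intro i
        rw [Nat.testBit_and]
        cases i with
        | zero => simp [Nat.testBit_zero]
        | succ i =>
          rw [Nat.testBit_succ, Nat.testBit_succ]
          have e1 : (2 * a + 1) / 2 = a := by omega
          have e2 : (2 * a + 1 - 1) / 2 = a := by omega
          rw [e1, e2]
          simp

theorem low_spec {m : ℕ} (hm : m >>> 64 ≠ 0) (hb : ∀ i, 81 ≤ i → Nat.testBit m (64 + i) = false) :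
    ∃ g < 81, Nat.testBit m (64 + g) = true ∧ (∀ i < g, Nat.testBit m (64 + i) = false) ∧
      (∀ i, Nat.testBit (m &&& (m - 2 ^ 64)) (64 + i) =
        (Nat.testBit m (64 + i) && decide (i ≠ g))) ∧
      low m (m &&& (m - 2 ^ 64)) = g := by
  obtain ⟨g, h1, h2, h3⟩ := lowbit _ hm
  have hmm : ∀ i, Nat.testBit (m >>> 64) i = Nat.testBit m (64 + i) := fun i =>
    Nat.testBit_shiftRight m
  rw [Nat.shiftRight_eq_div_pow] at hm h1 h2 h3 hmm
  set h := m / 2 ^ 64 with hh
  set r := m % 2 ^ 64 with hr
  have hr2 : r < 2 ^ 64 := Nat.mod_lt _ (by positivity)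
  have hmr : m = 2 ^ 64 * h + r := (Nat.div_add_mod m (2 ^ 64)).symm
  clear_value h r
  have hmr2 : m - 2 ^ 64 = 2 ^ 64 * (h - 1) + r := by
    have : 1 ≤ h := Nat.one_le_iff_ne_zero.2 hm
    obtain ⟨q, hq⟩ : ∃ q, h = q + 1 := ⟨h - 1, by omega⟩
    rw [hmr, hq, Nat.add_sub_cancel]
    omega
  have hg : g < 81 := by
    by_contra hc
    rw [hmm, hb g (by omega)] at h1
    exact absurd h1 (by simp)
  have hbit1 : ∀ j, Nat.testBit m j = if j < 64 then Nat.testBit r j else Nat.testBit h (j - 64) := by
    intro j
    conv_lhs => rw [hmr]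
    exact Nat.testBit_two_pow_mul_add h hr2 j
  have hbit2 : ∀ j, Nat.testBit (m - 2 ^ 64) j =
      if j < 64 then Nat.testBit r j else Nat.testBit (h - 1) (j - 64) := by
    intro j
    rw [hmr2]
    exact Nat.testBit_two_pow_mul_add (h - 1) hr2 j
  have hand : ∀ i, Nat.testBit (m &&& (m - 2 ^ 64)) (64 + i) =
        (Nat.testBit m (64 + i) && decide (i ≠ g)) := by
    intro i
    rw [Nat.testBit_and, hbit1, hbit2, if_neg (by omega), if_neg (by omega)]
    have e : 64 + i - 64 = i := by omega
    rw [e, ← Nat.testBit_and, h3]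
  refine ⟨g, hg, ?_, ?_, hand, ?_⟩
  · rw [← hmm]; exact h1
  · intro i hi
    rw [← hmm]; exact h2 i hi
  · have hx : m ^^^ (m &&& (m - 2 ^ 64)) = 2 ^ (64 + g) := by
      apply Nat.eq_of_testBit_eq
      intro j
      rw [Nat.testBit_xor, Nat.testBit_two_pow]
      by_cases hj : j < 64
      · rw [Nat.testBit_and, hbit1, hbit2, if_pos hj, if_pos hj]
        have : ¬ (64 + g = j) := by omega
        simp [this]
      · obtain ⟨i, rfl⟩ : ∃ i, j = 64 + i := ⟨j - 64, by omega⟩
        rw [hand]
        by_cases hig : i = g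
        · subst hig
          rw [← hmm, h1]
          simp
        · simp [hig, Ne.symm hig]
    rw [low_eq, hx]
    have h4 := chkT
    rw [List.all_eq_true] at h4
    exact Nat.eq_of_beq_eq_true (h4 g (List.mem_range.2 hg))

/-! ## The loop -/

theorem loop_zero (thr : ℕ) (F : ℕ → ℕ → Bool) (m : ℕ) : loop thr F 0 m = 0 := rfl

theorem loop_stop {thr : ℕ} {F : ℕ → ℕ → Bool} {n m : ℕ} (h : m >>> 64 = 0) :
    loop thr F (n + 1) m = 1 := by
  have e : loop thr F (n + 1) m = Nat.rec (motive := fun _ => ℕ) 1
      (fun _ _ => ((fun m' => Nat.rec (motive := fun _ => Nat) 0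
        (fun c _ => Bool.rec (Bool.rec 0 (Nat.succ (Nat.succ c)) ((fun g => F g m') (low m m')))
          (Nat.succ (Nat.succ c)) (Nat.ble (Nat.succ (Nat.succ c)) thr)) (loop thr F n m'))
        (Nat.land m (Nat.sub m (2 ^ 64))))) (m >>> 64) := rfl
  rw [e, h]
  rfl

theorem loop_go {thr : ℕ} {F : ℕ → ℕ → Bool} {n m : ℕ} (h : m >>> 64 ≠ 0) :
    loop thr F (n + 1) m = Nat.rec (motive := fun _ => Nat) 0
        (fun c _ => bif Nat.ble (c + 2) thr then c + 2 else
          (bif F (low m (m &&& (m - 2 ^ 64))) (m &&& (m - 2 ^ 64)) then c + 2 else 0))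
        (loop thr F n (m &&& (m - 2 ^ 64))) := by
  have e : loop thr F (n + 1) m = Nat.rec (motive := fun _ => ℕ) 1
      (fun _ _ => ((fun m' => Nat.rec (motive := fun _ => Nat) 0
        (fun c _ => Bool.rec (Bool.rec 0 (Nat.succ (Nat.succ c)) ((fun g => F g m') (low m m')))
          (Nat.succ (Nat.succ c)) (Nat.ble (Nat.succ (Nat.succ c)) thr)) (loop thr F n m'))
        (Nat.land m (Nat.sub m (2 ^ 64))))) (m >>> 64) := rfl
  rw [e]
  obtain ⟨q, hq⟩ := Nat.exists_eq_succ_of_ne_zero h
  rw [hq]
  show Nat.rec (motive := fun _ => Nat) 0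
        (fun c _ => Bool.rec (Bool.rec 0 (Nat.succ (Nat.succ c))
          (F (low m (m &&& (m - 2 ^ 64))) (m &&& (m - 2 ^ 64))))
          (Nat.succ (Nat.succ c)) (Nat.ble (Nat.succ (Nat.succ c)) thr))
          (loop thr F n (m &&& (m - 2 ^ 64))) = _
  congr 1
  funext c _
  have e3 : ∀ (b1 b2 : Bool) (x : ℕ), (Bool.rec (motive := fun _ => ℕ)
      (Bool.rec (motive := fun _ => ℕ) 0 x b1) x b2) = (bif b2 then x else (bif b1 then x else 0)) := by
    intro b1 b2 x
    cases b1 <;> cases b2 <;> rfl
  exact e3 _ _ _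

theorem loop_spec {thr : ℕ} {F : ℕ → ℕ → Bool} : ∀ (n m c : ℕ),
    (∀ i, 81 ≤ i → Nat.testBit m (64 + i) = false) → loop thr F n m = c + 1 →
    ∀ M : Finset ℕ, (∀ i ∈ M, Nat.testBit m (64 + i) = true) →
      M.card ≤ c ∧ ∀ g ∈ M, (∀ i ∈ M, g ≤ i) → thr ≤ M.card →
        ∃ m', (∀ i, Nat.testBit m' (64 + i) = (Nat.testBit m (64 + i) && decide (g < i))) ∧
          F g m' = true := by
  intro n
  induction n with
  | zero =>
    intro m c _ h
    rw [loop_zero] at h
    omega
  | succ n ih =>
    intro m c hb h M hM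
    by_cases hm : m >>> 64 = 0
    · have hM0 : M = ∅ := by
        rw [Finset.eq_empty_iff_forall_notMem]
        intro i hi
        have h1 := hM i hi
        rw [← Nat.testBit_shiftRight, hm] at h1
        simp at h1
      rw [hM0]
      refine ⟨by simp, ?_⟩
      intro g hg
      simp at hg
    · obtain ⟨g, hg81, hg1, hg2, hg3, hg4⟩ := low_spec hm hb
      rw [loop_go hm, hg4] at h
      set m' := m &&& (m - 2 ^ 64) with hm'
      have hb' : ∀ i, 81 ≤ i → Nat.testBit m' (64 + i) = false := by
        intro i hi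
        rw [hg3, hb i hi, Bool.false_and]
      cases hl : loop thr F n m' with
      | zero =>
        rw [hl] at h
        exact absurd h (by simp)
      | succ c' =>
        rw [hl] at h
        change (bif Nat.ble (c' + 2) thr then c' + 2 else
          (bif F g m' then c' + 2 else 0)) = c + 1 at h
        have hIH := ih m' c' hb' hl
        have hcc : c = c' + 1 ∧ (Nat.ble (c' + 2) thr = false → F g m' = true) := by
          cases h1 : Nat.ble (c' + 2) thr
          · rw [h1] at h
            cases h2 : F g m'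
            · rw [h2] at h
              exact absurd h (by simp)
            · rw [h2] at h
              simp only [cond_false, cond_true] at h
              exact ⟨by omega, fun _ => rfl⟩
          · rw [h1] at h
            simp only [cond_true] at h
            exact ⟨by omega, fun h => absurd h (by simp)⟩
        have hMe : ∀ i ∈ M.erase g, Nat.testBit m' (64 + i) = true := by
          intro i hi
          rw [Finset.mem_erase] at hi
          rw [hg3, hM i hi.2]
          simp [hi.1]
        have hcard : M.card ≤ c := by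
          have h1 := (hIH (M.erase g) hMe).1
          have h2 := Finset.pred_card_le_card_erase (s := M) (a := g)
          omega
        refine ⟨hcard, ?_⟩
        intro a ha hmin hthr
        by_cases hag : a = g
        · subst hag
          refine ⟨m', ?_, ?_⟩
          · intro i
            rw [hg3]
            rcases lt_trichotomy i a with h1 | h1 | h1
            · rw [hg2 i h1]; simp
            · subst h1; simp
            · have h2 : i ≠ a := by omega
              simp [h1, h2]
          · apply hcc.2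
            rw [← Bool.not_eq_true]
            intro h3
            have := Nat.le_of_ble_eq_true h3
            omega
        · have hgM : g ∉ M := by
            intro hgM
            have h1 := hmin g hgM
            have h2 := hg2 a (by omega)
            rw [hM a ha] at h2
            exact absurd h2 (by simp)
          have hga : g < a := by
            by_contra h1
            have h2 := hg2 a (by omega)
            rw [hM a ha] at h2
            exact absurd h2 (by simp)
          have hM' : ∀ i ∈ M, Nat.testBit m' (64 + i) = true := by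
            intro i hi
            apply hMe
            rw [Finset.mem_erase]
            exact ⟨fun h => hgM (h ▸ hi), hi⟩
          obtain ⟨m'', h1, h2⟩ := (hIH M hM').2 a ha hmin hthr
          refine ⟨m'', ?_, h2⟩
          intro i
          rw [h1, hg3]
          by_cases hai : a < i
          · have : i ≠ g := by omega
            simp [hai, this]
          · simp [hai]

end Pool.Agent.Q152.C0
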