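import Pool.Agent.Q152.C0.Cases

/-!
# Zero-sum sequences of length 15 and 17 have short zero-sum subsequences
-/

set_option maxRecDepth 100000

namespace Pool.Agent.Q152.C0

theorem tg0_false {c j : ℕ} (h : tg0 c j = true) : False := absurd h (by simp [tg0])

/-- an odd block with five labels one -/
theorem extract5 {R T : Multiset G} (hT : T ≤ R) (hc : T.card = 5) (hn : nB T = 5)
    (hs : T.sum.1 = 0) : ∃ C A B : Multiset V, C.card = 5 ∧ C.sum = 0 ∧ B.card + 5 = nB R ∧
      A.card + nB R = R.card ∧ R = fam true C + fam false A + fam true B := by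
  obtain ⟨A', C, h1, h2, h3⟩ := decomp T
  have hA' : A' = 0 := by rw [← Multiset.card_eq_zero]; omega
  rw [hA'] at h1
  have h1' : T = fam true C := by rw [h1]; simp [fam]
  obtain ⟨A, B, g1, g2, g3⟩ := decomp (R - T)
  have hsub := nB_sub hT
  have hle := nB_mono hT
  have hcs : (R - T).card = R.card - T.card := Multiset.card_sub hT
  have hcle := Multiset.card_le_card hT
  refine ⟨C, A, B, by omega, ?_, by omega, by omega, ?_⟩
  · rw [h1', fam_sum] at hs; exact hs
  · have : R = T + (R - T) := by rw [add_comm, Multiset.sub_add_cancel hT]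
    conv_lhs => rw [this, g1, h1']
    rw [add_assoc]

/-- an odd block with five labels one and one label zero -/
theorem extract6 {R T : Multiset G} (hT : T ≤ R) (hc : T.card = 6) (hn : nB T = 5)
    (hs : T.sum.1 = 0) : ∃ D C A B : Multiset V, D.card = 1 ∧ C.card = 5 ∧ D.sum + C.sum = 0 ∧
      B.card + 5 = nB R ∧ A.card + 1 + nB R = R.card ∧
      R = fam false D + fam true C + fam false A + fam true B := by
  obtain ⟨D, C, h1, h2, h3⟩ := decomp T
  obtain ⟨A, B, g1, g2, g3⟩ := decomp (R - T)
  have hsub := nB_sub hT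
  have hle := nB_mono hT
  have hcs : (R - T).card = R.card - T.card := Multiset.card_sub hT
  have hcle := Multiset.card_le_card hT
  refine ⟨D, C, A, B, by omega, by omega, ?_, by omega, by omega, ?_⟩
  · rw [h1, Multiset.sum_add, fam_sum, fam_sum] at hs; exact hs
  · have : R = T + (R - T) := by rw [add_comm, Multiset.sub_add_cancel hT]
    conv_lhs => rw [this, g1, h1]
    rw [add_assoc, add_assoc, add_assoc]

/-- check that lists of lengths are excluded -/
def chkF (n l : ℕ) (FE FO : List ℕ) : Bool :=
  (FE.all fun k => decide (0 < k) && !decide (7 ≤ k ∧ k + 7 ≤ n ∧ k + 2 * l ≤ n)) &&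
  (FO.all fun k => decide (0 < k) && decide (k + l ≠ n) &&
    !decide (l ≤ k ∧ 7 ≤ k + l ∧ k + l + 7 ≤ n))

theorem not_bad {n l : ℕ} {R : Multiset G} (hRc : R.card + l = n) (hRs : R.sum = (0, 1))
    (hok : ∀ T ≤ R, 0 < T.card → T.card < R.card → T.sum.1 = 0 → okT n l T.card (nB T) = true)
    {FE FO : List ℕ} (h : chkF n l FE FO = true) : ¬ Bad FE FO R := by
  unfold chkF at h
  rw [Bool.and_eq_true, List.all_eq_true, List.all_eq_true] at h
  rintro ⟨U, hU, ⟨h1, h2⟩ | ⟨h1, h2⟩⟩
  · have h3 := h.1 U.card h1
    rw [Bool.and_eq_true, decide_eq_true_eq, Bool.not_eq_true', decide_eq_false_iff_not] at h3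
    have hle := Multiset.card_le_card hU
    have hlt : U.card < R.card := by
      rcases Nat.lt_or_ge U.card R.card with h4 | h4
      · exact h4
      · exfalso
        have h5 := Multiset.eq_of_le_of_card_le hU h4
        rw [h5, hRs] at h2
        exact absurd (congrArg Prod.snd h2) (by decide)
    have h4 := hok U hU h3.1 hlt (by rw [h2]; rfl)
    have h5 : ¬ (nB U % 2 = 1) := by have := nB_even h2; omega
    unfold okT at h4
    simp only [h5, decide_false, cond_false, decide_eq_true_eq] at h4
    exact h3.2 h4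
  · have h3 := h.2 U.card h1
    rw [Bool.and_eq_true, Bool.and_eq_true, decide_eq_true_eq, decide_eq_true_eq,
      Bool.not_eq_true', decide_eq_false_iff_not] at h3
    have hle := Multiset.card_le_card hU
    have hlt : U.card < R.card := by omega
    have h4 := hok U hU h3.1.1 hlt (by rw [h2])
    have h5 := nB_odd h2
    unfold okT at h4
    simp only [h5, decide_true, cond_true, decide_eq_true_eq] at h4
    exact h3.2 h4

/-- the first main statement -/
theorem main15 (S : Multiset G) (hS : S.card = 15) (h0 : S.sum = 0) :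
    ∃ T ≤ S, 0 < T.card ∧ T.card ≤ 6 ∧ T.sum = 0 := by
  by_contra hcon
  have hfree : ∀ T ≤ S, 0 < T.card → T.card ≤ 6 → T.sum ≠ 0 := by
    intro T h1 h2 h3 h4
    exact hcon ⟨T, h1, h2, h3, h4⟩
  by_cases hodd : ∃ T ≤ S, T.card ≤ 5 ∧ T.sum = (0, 1)
  · obtain ⟨l, R, hl1, hl5, hRS, hRc, hRs, hBle, hBge, hBodd, hok⟩ := reduce hS h0 hfree hodd
    have hRs1 : R.sum.1 = 0 := by rw [hRs]
    have hnR := nB_le_card R
    have hok' : ∀ N, R.card = N → ∀ T ≤ R, 0 < T.card → T.card < N → T.sum.1 = 0 →
        okT 15 l T.card (nB T) = true := by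
      rintro N rfl; exact hok
    interval_cases l
    · obtain ⟨T, _, _, _, _, h5⟩ := use_cert (N := 14) (by omega) hRs1 rfl (hok' 14 (by omega))
        (c15_1 (nB R) (by omega) hBodd)
      exact tg0_false h5
    · have hSev := nB_even h0
      have hSR : nB S = nB R + 1 := by omega
      have h13 : R.card = 13 := by omega
      have hokS : ∀ T ≤ S, 0 < T.card → T.card < 15 → T.sum.1 = 0 →
          okS T.card (nB T) = true := by
        intro T hT hT0 hT1 hTs
        unfold okS
        rw [decide_eq_true_eq]
        rcases Nat.mod_two_eq_zero_or_one (nB T) with hpar | hpar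
        · right
          have h1 := (sum_eq_iff T hTs).2 hpar
          refine ⟨?_, ?_⟩
          · by_contra hc
            exact hfree T hT hT0 (by omega) h1
          · by_contra hc
            have h3 := sub_sum hT
            rw [h1, h0, add_zero] at h3
            have h4 : (S - T).card = S.card - T.card := Multiset.card_sub hT
            exact hfree (S - T) (Multiset.sub_le_self S T) (by omega) (by omega) h3
        · exact Or.inl hpar
      have hS1 : S.sum.1 = 0 := by rw [h0]; rfl
      have hcases : nB R = 1 ∨ nB R = 3 ∨ nB R = 5 ∨ nB R = 7 ∨ nB R = 9 ∨ nB R = 11 ∨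
        nB R = 13 := by omega
      rcases hcases with hb | hb | hb | hb | hb | hb | hb
      · obtain ⟨T, _, _, _, _, h5⟩ := use_cert hS hS1 (b := 2) (by omega) hokS c15_S_2
        exact tg0_false h5
      · obtain ⟨T, _, _, _, _, h5⟩ := use_cert hS hS1 (b := 4) (by omega) hokS c15_S_4
        exact tg0_false h5
      · obtain ⟨T, _, _, _, _, h5⟩ := use_cert hS hS1 (b := 6) (by omega) hokS c15_S_6
        exact tg0_false h5
      · obtain ⟨T, hT, _, _, hTs, h5⟩ := use_cert h13 hRs1 hb (hok' 13 h13) c15_2_7
        unfold tg5 at h5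
        rw [decide_eq_true_eq] at h5
        obtain ⟨C, A, B, g1, g2, g3, g4, g5⟩ := extract5 hT h5.1 h5.2 hTs
        have hbad := search_Q1 C A B g1 g2 (by omega) (by omega)
        rw [← g5] at hbad
        exact not_bad hRc hRs hok (by decide) hbad
      · obtain ⟨T, _, _, _, _, h5⟩ := use_cert h13 hRs1 hb (hok' 13 h13) c15_2_9
        exact tg0_false h5
      · obtain ⟨T, _, _, _, _, h5⟩ := use_cert h13 hRs1 hb (hok' 13 h13) c15_2_11
        exact tg0_false h5
      · obtain ⟨T, _, _, _, _, h5⟩ := use_cert h13 hRs1 hb (hok' 13 h13) c15_2_13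
        exact tg0_false h5
    · obtain ⟨T, _, _, _, _, h5⟩ := use_cert (N := 12) (by omega) hRs1 rfl (hok' 12 (by omega))
        (c15_3 (nB R) (by omega) hBodd)
      exact tg0_false h5
    · obtain ⟨T, _, _, _, _, h5⟩ := use_cert (N := 11) (by omega) hRs1 rfl (hok' 11 (by omega))
        (c15_4 (nB R) (by omega) hBodd)
      exact tg0_false h5
    · obtain ⟨T, _, _, _, _, h5⟩ := use_cert (N := 10) (by omega) hRs1 rfl (hok' 10 (by omega))
        (c15_5 (nB R) (by omega) hBodd)
      exact tg0_false h5
  · have := no_odd (n := 15) (by norm_num) (by norm_num) hS h0 hfree (by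
      intro T h1 h2 h3
      exact hodd ⟨T, h1, h2, h3⟩)
    omega

theorem count_zero_labels {S : Multiset G} (hS : S.card = 17) (h0 : S.sum = 0)
    (hfree : ∀ T ≤ S, 0 < T.card → T.card ≤ 6 → T.sum ≠ 0) : 8 ≤ nB S := by
  have hbad : ∀ U ≤ S, ¬ Bad FK [] U := by
    rintro U hU ⟨T, hT, h1 | h1⟩
    · have h2 := h1.1
      simp only [FK, List.mem_cons, List.not_mem_nil, or_false] at h2
      exact hfree T (hT.trans hU) (by omega) (by omega) h1.2
    · exact absurd h1.1 (by simp)
  obtain ⟨A, B, h1, h2, h3⟩ := decomp S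
  have hev := nB_even h0
  by_contra hcon
  have hA11 : 11 ≤ A.card := by omega
  rcases Nat.lt_or_ge A.card 12 with h4 | h4
  · have hb := search_S A B (by omega) (by omega)
    rw [← h1] at hb
    exact hbad S le_rfl hb
  · obtain ⟨A', hA', hA'c⟩ := exists_sub_card A h4
    refine hbad (fam false A') ?_ (search_K A' hA'c)
    rw [h1]
    exact (fam_mono false hA').trans (Multiset.le_add_right _ _)

/-- the second main statement -/
theorem main17 (S : Multiset G) (hS : S.card = 17) (h0 : S.sum = 0) :
    ∃ T ≤ S, 0 < T.card ∧ T.card ≤ 6 ∧ T.sum = 0 := by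
  by_contra hcon
  have hfree : ∀ T ≤ S, 0 < T.card → T.card ≤ 6 → T.sum ≠ 0 := by
    intro T h1 h2 h3 h4
    exact hcon ⟨T, h1, h2, h3, h4⟩
  have hB8 := count_zero_labels hS h0 hfree
  have hSev := nB_even h0
  by_cases hodd : ∃ T ≤ S, T.card ≤ 6 ∧ T.sum = (0, 1)
  · obtain ⟨l, R, hl1, hl5, hRS, hRc, hRs, hBle, hBge, hBodd, hok⟩ := reduce hS h0 hfree hodd
    have hRs1 : R.sum.1 = 0 := by rw [hRs]
    have hnR := nB_le_card R
    have hok' : ∀ N, R.card = N → ∀ T ≤ R, 0 < T.card → T.card < N → T.sum.1 = 0 →
        okT 17 l T.card (nB T) = true := by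
      rintro N rfl; exact hok
    interval_cases l
    · -- one element
      obtain ⟨S', hS', hS'c⟩ := exists_sub_card R (n := 14) (by omega)
      obtain ⟨T1, hT1, hT1c, hT1s⟩ := lemmaU (S'.map Prod.fst) (by rw [Multiset.card_map, hS'c])
      obtain ⟨T, hT, hTm⟩ := le_map_lift Prod.fst S' T1 hT1
      have hTR := hT.trans hS'
      have hTc : T.card = T1.card := by rw [← hTm, Multiset.card_map]
      have hTs : T.sum.1 = 0 := by
        rw [← hT1s, ← hTm]
        exact map_multiset_sum (AddMonoidHom.fst V (ZMod 2)) T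
      simp only [FU, List.mem_cons, List.not_mem_nil, or_false] at hT1c
      have h1 := hok T hTR (by omega) (by omega) hTs
      unfold okT at h1
      rcases Nat.mod_two_eq_zero_or_one (nB T) with hpar | hpar
      · have h2 : ¬ (nB T % 2 = 1) := by omega
        simp only [h2, decide_false, cond_false, decide_eq_true_eq] at h1
        omega
      · simp only [hpar, decide_true, cond_true, decide_eq_true_eq] at h1
        omega
    · have h15 : R.card = 15 := by omega
      have hcases : nB R = 7 ∨ nB R = 9 ∨ nB R = 11 ∨ nB R = 13 ∨ nB R = 15 := by omega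
      rcases hcases with hb | hb | hb | hb | hb
      · obtain ⟨T, hT, _, _, hTs, h5⟩ := use_cert h15 hRs1 hb (hok' 15 h15) c17_2_7
        unfold tg5 at h5
        rw [decide_eq_true_eq] at h5
        obtain ⟨C, A, B, g1, g2, g3, g4, g5⟩ := extract5 hT h5.1 h5.2 hTs
        obtain ⟨A', hA', hA'c⟩ := exists_sub_card A (n := 6) (by omega)
        have hbad := search_Q1 C A' B g1 g2 hA'c (by omega)
        have hle : fam true C + fam false A' + fam true B ≤ R := by
          rw [g5]
          exact add_le_add_left (add_le_add_right (fam_mono false hA') _) _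
        exact not_bad hRc hRs hok (by decide) (hbad.mono hle)
      · obtain ⟨T, _, _, _, _, h5⟩ := use_cert h15 hRs1 hb (hok' 15 h15) c17_2_9
        exact tg0_false h5
      · obtain ⟨T, _, _, _, _, h5⟩ := use_cert h15 hRs1 hb (hok' 15 h15) c17_2_11
        exact tg0_false h5
      · obtain ⟨T, _, _, _, _, h5⟩ := use_cert h15 hRs1 hb (hok' 15 h15) c17_2_13
        exact tg0_false h5
      · obtain ⟨T, _, _, _, _, h5⟩ := use_cert h15 hRs1 hb (hok' 15 h15) c17_2_15
        exact tg0_false h5
    · have h14 : R.card = 14 := by omega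
      have hcases : nB R = 5 ∨ nB R = 7 ∨ nB R = 9 ∨ nB R = 11 ∨ nB R = 13 := by omega
      rcases hcases with hb | hb | hb | hb | hb
      · obtain ⟨T, hT, _, _, hTs, h5⟩ := use_cert h14 hRs1 hb (hok' 14 h14) c17_3_5
        unfold tg56 at h5
        rw [decide_eq_true_eq] at h5
        rcases h5.1 with h6 | h6
        · obtain ⟨C, A, B, g1, g2, g3, g4, g5⟩ := extract5 hT h6 h5.2 hTs
          have hbad := search_Q5z C A g1 g2 (by omega)
          have hle : fam true C + fam false A ≤ R := by
            conv_rhs => rw [g5]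
            exact Multiset.le_add_right _ _
          exact not_bad hRc hRs hok (by decide) (hbad.mono hle)
        · obtain ⟨D, C, A, B, g0, g1, g2, g3, g4, g5⟩ := extract6 hT h6 h5.2 hTs
          have hbad := search_Q5n D C A g0 g1 g2 (by omega)
          have hle : fam false D + fam true C + fam false A ≤ R := by
            conv_rhs => rw [g5]
            exact Multiset.le_add_right _ _
          exact not_bad hRc hRs hok (by decide) (hbad.mono hle)
      · obtain ⟨T, hT, _, _, hTs, h5⟩ := use_cert h14 hRs1 hb (hok' 14 h14) c17_3_7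
        unfold tg5 at h5
        rw [decide_eq_true_eq] at h5
        obtain ⟨C, A, B, g1, g2, g3, g4, g5⟩ := extract5 hT h5.1 h5.2 hTs
        have hbad := search_Q3 C A B g1 g2 (by omega) (by omega)
        rw [← g5] at hbad
        exact not_bad hRc hRs hok (by decide) hbad
      · obtain ⟨T, _, _, _, _, h5⟩ := use_cert h14 hRs1 hb (hok' 14 h14) c17_3_9
        exact tg0_false h5
      · obtain ⟨T, _, _, _, _, h5⟩ := use_cert h14 hRs1 hb (hok' 14 h14) c17_3_11
        exact tg0_false h5
      · obtain ⟨T, _, _, _, _, h5⟩ := use_cert h14 hRs1 hb (hok' 14 h14) c17_3_13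
        exact tg0_false h5
    · have h13 : R.card = 13 := by omega
      have hcases : nB R = 5 ∨ nB R = 7 ∨ nB R = 9 ∨ nB R = 11 ∨ nB R = 13 := by omega
      rcases hcases with hb | hb | hb | hb | hb
      · obtain ⟨T, hT, _, _, hTs, h5⟩ := use_cert h13 hRs1 hb (hok' 13 h13) c17_4_5
        unfold tg56 at h5
        rw [decide_eq_true_eq] at h5
        rcases h5.1 with h6 | h6
        · obtain ⟨C, A, B, g1, g2, g3, g4, g5⟩ := extract5 hT h6 h5.2 hTs
          have hbad := search_Q6z C A g1 g2 (by omega)
          have hle : fam true C + fam false A ≤ R := by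
            conv_rhs => rw [g5]
            exact Multiset.le_add_right _ _
          exact not_bad hRc hRs hok (by decide) (hbad.mono hle)
        · obtain ⟨D, C, A, B, g0, g1, g2, g3, g4, g5⟩ := extract6 hT h6 h5.2 hTs
          have hbad := search_Q6n D C A g0 g1 g2 (by omega)
          have hle : fam false D + fam true C + fam false A ≤ R := by
            conv_rhs => rw [g5]
            exact Multiset.le_add_right _ _
          exact not_bad hRc hRs hok (by decide) (hbad.mono hle)
      · obtain ⟨T, hT, _, _, hTs, h5⟩ := use_cert h13 hRs1 hb (hok' 13 h13) c17_4_7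
        unfold tg5 at h5
        rw [decide_eq_true_eq] at h5
        obtain ⟨C, A, B, g1, g2, g3, g4, g5⟩ := extract5 hT h5.1 h5.2 hTs
        have hbad := search_Q4 C A B g1 g2 (by omega) (by omega)
        rw [← g5] at hbad
        exact not_bad hRc hRs hok (by decide) hbad
      · obtain ⟨T, _, _, _, _, h5⟩ := use_cert h13 hRs1 hb (hok' 13 h13) c17_4_9
        exact tg0_false h5
      · obtain ⟨T, _, _, _, _, h5⟩ := use_cert h13 hRs1 hb (hok' 13 h13) c17_4_11
        exact tg0_false h5
      · obtain ⟨T, _, _, _, _, h5⟩ := use_cert h13 hRs1 hb (hok' 13 h13) c17_4_13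
        exact tg0_false h5
    · obtain ⟨T, _, _, _, _, h5⟩ := use_cert (N := 12) (by omega) hRs1 rfl (hok' 12 (by omega))
        (c17_5 (nB R) (by omega) hBodd)
      exact tg0_false h5
    · obtain ⟨T, _, _, _, _, h5⟩ := use_cert (N := 11) (by omega) hRs1 rfl (hok' 11 (by omega))
        (c17_6 (nB R) (by omega) hBodd)
      exact tg0_false h5
  · have := no_odd (n := 17) (by norm_num) (by norm_num) hS h0 hfree (by
      intro T h1 h2 h3
      exact hodd ⟨T, h1, by omega, h3⟩)
    omega

end Pool.Agent.Q152.C0
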