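import Pool.Agent.Q152.C0.Inst

/-!
# Evaluation of the searches by the kernel, part 0

The imports of the other parts only keep the number of parts that are checked at the same time small.
-/

set_option maxRecDepth 1000000

namespace Pool.Agent.Q152.C0

theorem all_00 :
    run (iQ1 1 0) st0 1 = true ∧
    run (iQ1 2 2) st0 1 = true ∧
    run (iQ3 2 3) st0 1 = true ∧
    run (iQ4 1 2) st0 1 = true ∧
    run (iQ4 2 1) st0 1 = true ∧
    run (iQ5n 0 0) st0 1 = true ∧
    run (iS 3) st0 1 = true :=
  ⟨by decide +kernel,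
   by decide +kernel,
   by decide +kernel,
   by decide +kernel,
   by decide +kernel,
   by decide +kernel,
   by decide +kernel⟩

theorem r_iQ1_1_0 : run (iQ1 1 0) st0 1 = true := all_00.1

theorem r_iQ1_2_2 : run (iQ1 2 2) st0 1 = true := all_00.2.1

theorem r_iQ3_2_3 : run (iQ3 2 3) st0 1 = true := all_00.2.2.1

theorem r_iQ4_1_2 : run (iQ4 1 2) st0 1 = true := all_00.2.2.2.1

theorem r_iQ4_2_1 : run (iQ4 2 1) st0 1 = true := all_00.2.2.2.2.1

theorem r_iQ5n_0_0 : run (iQ5n 0 0) st0 1 = true := all_00.2.2.2.2.2.1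

theorem r_iS_3 : run (iS 3) st0 1 = true := all_00.2.2.2.2.2.2

end Pool.Agent.Q152.C0
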