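import Pool.Agent.Q152.C0.Inst

/-!
# Evaluation of the searches by the kernel, part 1

The imports of the other parts only keep the number of parts that are checked at the same time small.
-/

set_option maxRecDepth 1000000

namespace Pool.Agent.Q152.C0

theorem all_01 :
    run (iK 3) st0 1 = true ∧
    run (iQ1 2 0) st0 1 = true ∧
    run (iQ1 2 3) st0 1 = true ∧
    run (iQ3 0 1) st0 1 = true ∧
    run (iQ3 1 2) st0 1 = true ∧
    run (iQ5z 2 0) st0 1 = true ∧
    run (iQ5z 2 3) st0 1 = true :=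
  ⟨by decide +kernel,
   by decide +kernel,
   by decide +kernel,
   by decide +kernel,
   by decide +kernel,
   by decide +kernel,
   by decide +kernel⟩

theorem r_iK_3 : run (iK 3) st0 1 = true := all_01.1

theorem r_iQ1_2_0 : run (iQ1 2 0) st0 1 = true := all_01.2.1

theorem r_iQ1_2_3 : run (iQ1 2 3) st0 1 = true := all_01.2.2.1

theorem r_iQ3_0_1 : run (iQ3 0 1) st0 1 = true := all_01.2.2.2.1

theorem r_iQ3_1_2 : run (iQ3 1 2) st0 1 = true := all_01.2.2.2.2.1

theorem r_iQ5z_2_0 : run (iQ5z 2 0) st0 1 = true := all_01.2.2.2.2.2.1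

theorem r_iQ5z_2_3 : run (iQ5z 2 3) st0 1 = true := all_01.2.2.2.2.2.2

end Pool.Agent.Q152.C0
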