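import Pool.Agent.Q152.C0.Run00

/-!
# Evaluation of the searches by the kernel, part 4

The imports of the other parts only keep the number of parts that are checked at the same time small.
-/

set_option maxRecDepth 1000000

namespace Pool.Agent.Q152.C0

theorem all_04 :
    run (iQ4 1 1) st0 1 = true ∧
    run (iQ4 2 3) st0 1 = true ∧
    run (iQ5n 0 3) st0 1 = true ∧
    run (iQ5z 2 2) st0 1 = true ∧
    run (iQ6n 0 0) st0 1 = true ∧
    run (iU 4) st0 1 = true ∧
    run (iU 5) st0 1 = true ∧
    run (iU 7) st0 1 = true :=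
  ⟨by decide +kernel,
   by decide +kernel,
   by decide +kernel,
   by decide +kernel,
   by decide +kernel,
   by decide +kernel,
   by decide +kernel,
   by decide +kernel⟩

theorem r_iQ4_1_1 : run (iQ4 1 1) st0 1 = true := all_04.1

theorem r_iQ4_2_3 : run (iQ4 2 3) st0 1 = true := all_04.2.1

theorem r_iQ5n_0_3 : run (iQ5n 0 3) st0 1 = true := all_04.2.2.1

theorem r_iQ5z_2_2 : run (iQ5z 2 2) st0 1 = true := all_04.2.2.2.1

theorem r_iQ6n_0_0 : run (iQ6n 0 0) st0 1 = true := all_04.2.2.2.2.1

theorem r_iU_4 : run (iU 4) st0 1 = true := all_04.2.2.2.2.2.1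

theorem r_iU_5 : run (iU 5) st0 1 = true := all_04.2.2.2.2.2.2.1

theorem r_iU_7 : run (iU 7) st0 1 = true := all_04.2.2.2.2.2.2.2

end Pool.Agent.Q152.C0
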