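import Pool.Agent.Q152.C0.Run02

/-!
# Evaluation of the searches by the kernel, part 6

The imports of the other parts only keep the number of parts that are checked at the same time small.
-/

set_option maxRecDepth 1000000

namespace Pool.Agent.Q152.C0

theorem all_06 :
    run (iQ3 1 0) st0 1 = true ∧
    run (iQ5n 0 1) st0 1 = true ∧
    run (iQ5n 2 1) st0 1 = true ∧
    run (iQ5n 2 3) st0 1 = true ∧
    run (iQ6n 1 0) st0 1 = true ∧
    run (iQ6z 1 1) st0 1 = true ∧
    run (iQ6z 2 4) st0 1 = true ∧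
    run (iU 3) st0 1 = true :=
  ⟨by decide +kernel,
   by decide +kernel,
   by decide +kernel,
   by decide +kernel,
   by decide +kernel,
   by decide +kernel,
   by decide +kernel,
   by decide +kernel⟩

theorem r_iQ3_1_0 : run (iQ3 1 0) st0 1 = true := all_06.1

theorem r_iQ5n_0_1 : run (iQ5n 0 1) st0 1 = true := all_06.2.1

theorem r_iQ5n_2_1 : run (iQ5n 2 1) st0 1 = true := all_06.2.2.1

theorem r_iQ5n_2_3 : run (iQ5n 2 3) st0 1 = true := all_06.2.2.2.1

theorem r_iQ6n_1_0 : run (iQ6n 1 0) st0 1 = true := all_06.2.2.2.2.1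

theorem r_iQ6z_1_1 : run (iQ6z 1 1) st0 1 = true := all_06.2.2.2.2.2.1

theorem r_iQ6z_2_4 : run (iQ6z 2 4) st0 1 = true := all_06.2.2.2.2.2.2.1

theorem r_iU_3 : run (iU 3) st0 1 = true := all_06.2.2.2.2.2.2.2

end Pool.Agent.Q152.C0
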