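import Pool.Agent.Q152.C0.Run00
import Pool.Agent.Q152.C0.Run01
import Pool.Agent.Q152.C0.Run02
import Pool.Agent.Q152.C0.Run03
import Pool.Agent.Q152.C0.Run04
import Pool.Agent.Q152.C0.Run05
import Pool.Agent.Q152.C0.Run06
import Pool.Agent.Q152.C0.Run07
import Pool.Agent.Q152.C0.Run08
import Pool.Agent.Q152.C0.Run09
import Pool.Agent.Q152.C0.Run10
import Pool.Agent.Q152.C0.Run11
import Pool.Agent.Q152.C0.Run12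
import Pool.Agent.Q152.C0.Run13

/-!
# All searches
-/

namespace Pool.Agent.Q152.C0

theorem all_iU : ∀ x, x ≤ 7 → run (iU x) st0 1 = true
  | 0, _ => r_iU_0
  | 1, _ => r_iU_1
  | 2, _ => r_iU_2
  | 3, _ => r_iU_3
  | 4, _ => r_iU_4
  | 5, _ => r_iU_5
  | 6, _ => r_iU_6
  | 7, _ => r_iU_7
  | n + 8, h => absurd h (by omega)

theorem all_iK : ∀ x, x ≤ 6 → run (iK x) st0 1 = true
  | 0, _ => r_iK_0
  | 1, _ => r_iK_1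
  | 2, _ => r_iK_2
  | 3, _ => r_iK_3
  | 4, _ => r_iK_4
  | 5, _ => r_iK_5
  | 6, _ => r_iK_6
  | n + 7, h => absurd h (by omega)

theorem all_iS : ∀ x, x ≤ 5 → run (iS x) st0 1 = true
  | 0, _ => r_iS_0
  | 1, _ => r_iS_1
  | 2, _ => r_iS_2
  | 3, _ => r_iS_3
  | 4, _ => r_iS_4
  | 5, _ => r_iS_5
  | n + 6, h => absurd h (by omega)

theorem all_iQ1_0 : ∀ x, x ≤ 3 → run (iQ1 0 x) st0 1 = true
  | 0, _ => r_iQ1_0_0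
  | 1, _ => r_iQ1_0_1
  | 2, _ => r_iQ1_0_2
  | 3, _ => r_iQ1_0_3
  | n + 4, h => absurd h (by omega)

theorem all_iQ1_1 : ∀ x, x ≤ 3 → run (iQ1 1 x) st0 1 = true
  | 0, _ => r_iQ1_1_0
  | 1, _ => r_iQ1_1_1
  | 2, _ => r_iQ1_1_2
  | 3, _ => r_iQ1_1_3
  | n + 4, h => absurd h (by omega)

theorem all_iQ1_2 : ∀ x, x ≤ 3 → run (iQ1 2 x) st0 1 = true
  | 0, _ => r_iQ1_2_0
  | 1, _ => r_iQ1_2_1
  | 2, _ => r_iQ1_2_2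
  | 3, _ => r_iQ1_2_3
  | n + 4, h => absurd h (by omega)

theorem all_iQ1 : ∀ y x, y ≤ 2 → x ≤ 3 → run (iQ1 y x) st0 1 = true
  | 0, x, _, h => all_iQ1_0 x h
  | 1, x, _, h => all_iQ1_1 x h
  | 2, x, _, h => all_iQ1_2 x h
  | n + 3, _, h, _ => absurd h (by omega)

theorem all_iQ3_0 : ∀ x, x ≤ 3 → run (iQ3 0 x) st0 1 = true
  | 0, _ => r_iQ3_0_0
  | 1, _ => r_iQ3_0_1
  | 2, _ => r_iQ3_0_2
  | 3, _ => r_iQ3_0_3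
  | n + 4, h => absurd h (by omega)

theorem all_iQ3_1 : ∀ x, x ≤ 3 → run (iQ3 1 x) st0 1 = true
  | 0, _ => r_iQ3_1_0
  | 1, _ => r_iQ3_1_1
  | 2, _ => r_iQ3_1_2
  | 3, _ => r_iQ3_1_3
  | n + 4, h => absurd h (by omega)

theorem all_iQ3_2 : ∀ x, x ≤ 3 → run (iQ3 2 x) st0 1 = true
  | 0, _ => r_iQ3_2_0
  | 1, _ => r_iQ3_2_1
  | 2, _ => r_iQ3_2_2
  | 3, _ => r_iQ3_2_3
  | n + 4, h => absurd h (by omega)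

theorem all_iQ3 : ∀ y x, y ≤ 2 → x ≤ 3 → run (iQ3 y x) st0 1 = true
  | 0, x, _, h => all_iQ3_0 x h
  | 1, x, _, h => all_iQ3_1 x h
  | 2, x, _, h => all_iQ3_2 x h
  | n + 3, _, h, _ => absurd h (by omega)

theorem all_iQ4_0 : ∀ x, x ≤ 3 → run (iQ4 0 x) st0 1 = true
  | 0, _ => r_iQ4_0_0
  | 1, _ => r_iQ4_0_1
  | 2, _ => r_iQ4_0_2
  | 3, _ => r_iQ4_0_3
  | n + 4, h => absurd h (by omega)

theorem all_iQ4_1 : ∀ x, x ≤ 3 → run (iQ4 1 x) st0 1 = true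
  | 0, _ => r_iQ4_1_0
  | 1, _ => r_iQ4_1_1
  | 2, _ => r_iQ4_1_2
  | 3, _ => r_iQ4_1_3
  | n + 4, h => absurd h (by omega)

theorem all_iQ4_2 : ∀ x, x ≤ 3 → run (iQ4 2 x) st0 1 = true
  | 0, _ => r_iQ4_2_0
  | 1, _ => r_iQ4_2_1
  | 2, _ => r_iQ4_2_2
  | 3, _ => r_iQ4_2_3
  | n + 4, h => absurd h (by omega)

theorem all_iQ4 : ∀ y x, y ≤ 2 → x ≤ 3 → run (iQ4 y x) st0 1 = true
  | 0, x, _, h => all_iQ4_0 x h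
  | 1, x, _, h => all_iQ4_1 x h
  | 2, x, _, h => all_iQ4_2 x h
  | n + 3, _, h, _ => absurd h (by omega)

theorem all_iQ5z_0 : ∀ x, x ≤ 4 → run (iQ5z 0 x) st0 1 = true
  | 0, _ => r_iQ5z_0_0
  | 1, _ => r_iQ5z_0_1
  | 2, _ => r_iQ5z_0_2
  | 3, _ => r_iQ5z_0_3
  | 4, _ => r_iQ5z_0_4
  | n + 5, h => absurd h (by omega)

theorem all_iQ5z_1 : ∀ x, x ≤ 4 → run (iQ5z 1 x) st0 1 = true
  | 0, _ => r_iQ5z_1_0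
  | 1, _ => r_iQ5z_1_1
  | 2, _ => r_iQ5z_1_2
  | 3, _ => r_iQ5z_1_3
  | 4, _ => r_iQ5z_1_4
  | n + 5, h => absurd h (by omega)

theorem all_iQ5z_2 : ∀ x, x ≤ 4 → run (iQ5z 2 x) st0 1 = true
  | 0, _ => r_iQ5z_2_0
  | 1, _ => r_iQ5z_2_1
  | 2, _ => r_iQ5z_2_2
  | 3, _ => r_iQ5z_2_3
  | 4, _ => r_iQ5z_2_4
  | n + 5, h => absurd h (by omega)

theorem all_iQ5z : ∀ y x, y ≤ 2 → x ≤ 4 → run (iQ5z y x) st0 1 = true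
  | 0, x, _, h => all_iQ5z_0 x h
  | 1, x, _, h => all_iQ5z_1 x h
  | 2, x, _, h => all_iQ5z_2 x h
  | n + 3, _, h, _ => absurd h (by omega)

theorem all_iQ5n_0 : ∀ x, x ≤ 4 → run (iQ5n 0 x) st0 1 = true
  | 0, _ => r_iQ5n_0_0
  | 1, _ => r_iQ5n_0_1
  | 2, _ => r_iQ5n_0_2
  | 3, _ => r_iQ5n_0_3
  | 4, _ => r_iQ5n_0_4
  | n + 5, h => absurd h (by omega)

theorem all_iQ5n_1 : ∀ x, x ≤ 4 → run (iQ5n 1 x) st0 1 = true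
  | 0, _ => r_iQ5n_1_0
  | 1, _ => r_iQ5n_1_1
  | 2, _ => r_iQ5n_1_2
  | 3, _ => r_iQ5n_1_3
  | 4, _ => r_iQ5n_1_4
  | n + 5, h => absurd h (by omega)

theorem all_iQ5n_2 : ∀ x, x ≤ 4 → run (iQ5n 2 x) st0 1 = true
  | 0, _ => r_iQ5n_2_0
  | 1, _ => r_iQ5n_2_1
  | 2, _ => r_iQ5n_2_2
  | 3, _ => r_iQ5n_2_3
  | 4, _ => r_iQ5n_2_4
  | n + 5, h => absurd h (by omega)

theorem all_iQ5n : ∀ y x, y ≤ 2 → x ≤ 4 → run (iQ5n y x) st0 1 = true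
  | 0, x, _, h => all_iQ5n_0 x h
  | 1, x, _, h => all_iQ5n_1 x h
  | 2, x, _, h => all_iQ5n_2 x h
  | n + 3, _, h, _ => absurd h (by omega)

theorem all_iQ6z_0 : ∀ x, x ≤ 4 → run (iQ6z 0 x) st0 1 = true
  | 0, _ => r_iQ6z_0_0
  | 1, _ => r_iQ6z_0_1
  | 2, _ => r_iQ6z_0_2
  | 3, _ => r_iQ6z_0_3
  | 4, _ => r_iQ6z_0_4
  | n + 5, h => absurd h (by omega)

theorem all_iQ6z_1 : ∀ x, x ≤ 4 → run (iQ6z 1 x) st0 1 = true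
  | 0, _ => r_iQ6z_1_0
  | 1, _ => r_iQ6z_1_1
  | 2, _ => r_iQ6z_1_2
  | 3, _ => r_iQ6z_1_3
  | 4, _ => r_iQ6z_1_4
  | n + 5, h => absurd h (by omega)

theorem all_iQ6z_2 : ∀ x, x ≤ 4 → run (iQ6z 2 x) st0 1 = true
  | 0, _ => r_iQ6z_2_0
  | 1, _ => r_iQ6z_2_1
  | 2, _ => r_iQ6z_2_2
  | 3, _ => r_iQ6z_2_3
  | 4, _ => r_iQ6z_2_4
  | n + 5, h => absurd h (by omega)

theorem all_iQ6z : ∀ y x, y ≤ 2 → x ≤ 4 → run (iQ6z y x) st0 1 = true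
  | 0, x, _, h => all_iQ6z_0 x h
  | 1, x, _, h => all_iQ6z_1 x h
  | 2, x, _, h => all_iQ6z_2 x h
  | n + 3, _, h, _ => absurd h (by omega)

theorem all_iQ6n_0 : ∀ x, x ≤ 3 → run (iQ6n 0 x) st0 1 = true
  | 0, _ => r_iQ6n_0_0
  | 1, _ => r_iQ6n_0_1
  | 2, _ => r_iQ6n_0_2
  | 3, _ => r_iQ6n_0_3
  | n + 4, h => absurd h (by omega)

theorem all_iQ6n_1 : ∀ x, x ≤ 3 → run (iQ6n 1 x) st0 1 = true
  | 0, _ => r_iQ6n_1_0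
  | 1, _ => r_iQ6n_1_1
  | 2, _ => r_iQ6n_1_2
  | 3, _ => r_iQ6n_1_3
  | n + 4, h => absurd h (by omega)

theorem all_iQ6n_2 : ∀ x, x ≤ 3 → run (iQ6n 2 x) st0 1 = true
  | 0, _ => r_iQ6n_2_0
  | 1, _ => r_iQ6n_2_1
  | 2, _ => r_iQ6n_2_2
  | 3, _ => r_iQ6n_2_3
  | n + 4, h => absurd h (by omega)

theorem all_iQ6n : ∀ y x, y ≤ 2 → x ≤ 3 → run (iQ6n y x) st0 1 = true
  | 0, x, _, h => all_iQ6n_0 x h
  | 1, x, _, h => all_iQ6n_1 x h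
  | 2, x, _, h => all_iQ6n_2 x h
  | n + 3, _, h, _ => absurd h (by omega)

end Pool.Agent.Q152.C0
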