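import Pool.Agent.Q152.C0.Sound
import Pool.Agent.Q152.C0.RunAll

/-!
# The results of the searches, for sequences
-/

set_option maxRecDepth 100000

namespace Pool.Agent.Q152.C0

/-! ## Multisets -/

theorem exists_sub_card {α : Type*} (M : Multiset α) {n : ℕ} (h : n ≤ M.card) :
    ∃ N ≤ M, N.card = n := by
  have h1 : 0 < (M.powersetCard n).card := by
    rw [Multiset.card_powersetCard]
    exact Nat.choose_pos h
  obtain ⟨N, hN⟩ := Multiset.card_pos_iff_exists_mem.1 h1
  rw [Multiset.mem_powersetCard] at hN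
  exact ⟨N, hN⟩

theorem le_cons_iff' {α : Type*} (T : Multiset α) (a : α) (p : Multiset α) :
    T ≤ a ::ₘ p ↔ T ≤ p ∨ ∃ T' ≤ p, T = a ::ₘ T' := by
  rw [← Multiset.mem_powerset, Multiset.powerset_cons, Multiset.mem_add, Multiset.mem_powerset,
    Multiset.mem_map]
  simp only [Multiset.mem_powerset]
  constructor
  · rintro (h | ⟨T', h, rfl⟩)
    · exact Or.inl h
    · exact Or.inr ⟨T', h, rfl⟩
  · rintro (h | ⟨T', h, rfl⟩)
    · exact Or.inl h
    · exact Or.inr ⟨T', h, rfl⟩

theorem le_map_lift {α β : Type*} (f : α → β) (M : Multiset α) :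
    ∀ T : Multiset β, T ≤ M.map f → ∃ N ≤ M, N.map f = T := by
  induction M using Multiset.induction with
  | empty =>
    intro T hT
    rw [Multiset.map_zero, Multiset.le_zero] at hT
    exact ⟨0, le_rfl, by simp [hT]⟩
  | cons a M ih =>
    intro T hT
    rw [Multiset.map_cons, le_cons_iff'] at hT
    rcases hT with hT | ⟨T', hT, rfl⟩
    · obtain ⟨N, h1, h2⟩ := ih T hT
      exact ⟨N, h1.trans (Multiset.le_cons_self _ _), h2⟩
    · obtain ⟨N, h1, h2⟩ := ih T' hT
      exact ⟨a ::ₘ N, Multiset.cons_le_cons a h1, by rw [Multiset.map_cons, h2]⟩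

/-- a sequence with multiplicities at most two is twice a set plus a set -/
theorem split_two (M : Multiset V) (h : ∀ v, M.count v ≤ 2) : ∃ X Y : Multiset V, X.Nodup ∧
    Y.Nodup ∧ M = 2 • X + Y := by
  classical
  refine ⟨(M.toFinset.filter (fun v => M.count v = 2)).val,
    (M.toFinset.filter (fun v => M.count v = 1)).val, Finset.nodup _, Finset.nodup _, ?_⟩
  ext v
  rw [Multiset.count_add, Multiset.count_nsmul]
  have h1 : ∀ s : Finset V, Multiset.count v s.val = if v ∈ s then 1 else 0 := by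
    intro s
    by_cases hv : v ∈ s
    · rw [if_pos hv]; exact Multiset.count_eq_one_of_mem s.nodup hv
    · rw [if_neg hv]; exact Multiset.count_eq_zero_of_notMem hv
  rw [h1, h1]
  simp only [Finset.mem_filter, Multiset.mem_toFinset]
  have h2 := h v
  by_cases hv : v ∈ M
  · have h3 := Multiset.one_le_count_iff_mem.2 hv
    rcases Nat.lt_or_ge (M.count v) 2 with h4 | h4
    · have h5 : M.count v = 1 := by omega
      simp [hv, h5]
    · have h5 : M.count v = 2 := by omega
      simp [hv, h5]
  · have h3 : M.count v = 0 := Multiset.count_eq_zero_of_notMem hv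
    rw [h3]
    simp [hv]

/-- the vectors of `M` with label `e` -/
def fam (e : Bool) (M : Multiset V) : Multiset G := M.map (fun v => (v, lab e))

theorem fam_card (e : Bool) (M : Multiset V) : (fam e M).card = M.card := Multiset.card_map _ _

theorem fam_sum (e : Bool) (M : Multiset V) : (fam e M).sum = (M.sum, (M.card : ZMod 2) * lab e) := by
  induction M using Multiset.induction with
  | empty => simp [fam]; rfl
  | cons a M ih =>
    have : fam e (a ::ₘ M) = (a, lab e) ::ₘ fam e M := by simp [fam]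
    rw [this, Multiset.sum_cons, ih, Prod.mk_add_mk, Multiset.sum_cons, Multiset.card_cons]
    congr 1
    push_cast
    ring

theorem fam_mono (e : Bool) {M N : Multiset V} (h : M ≤ N) : fam e M ≤ fam e N :=
  Multiset.map_le_map h

theorem reps_single (e : Bool) (M : Multiset V) : reps e false M = fam e M := by
  simp [reps, fam]

theorem reps_double (e : Bool) (M : Multiset V) : reps e true M = 2 • fam e M := by
  simp [reps, fam]

theorem fam_split (e : Bool) (X Y : Multiset V) :
    fam e (2 • X + Y) = reps e true X + reps e false Y := by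
  rw [reps_single, reps_double]
  unfold fam
  rw [Multiset.map_add, Multiset.map_nsmul]

/-! ## Building solutions -/

/-- a family of phases with given label and masks -/
def IsPh (FE FO : List ℕ) (e : Bool) (ph : Bool → Bool → ℕ → ℕ → Ph) : Prop :=
  ∀ d s c f, (ph d s c f).e = e ∧ (ph d s c f).dbl = d ∧ (ph d s c f).str = s ∧
    (ph d s c f).cnt = c ∧ (ph d s c f).fl = f ∧ PhOK FE FO (ph d s c f)

theorem Sol.loose {FE FO : List ℕ} {e : Bool} {ph : Bool → Bool → ℕ → ℕ → Ph}
    (hph : IsPh FE FO e ph) {l : List Ph} {p : Multiset G} {A : Multiset V} (fl : ℕ)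
    (hfl : Filt fl (p + fam e A)) (h : Sol FE FO l (p + fam e A)) :
    Sol FE FO (ph false false A.card fl :: l) p := by
  obtain ⟨h1, h2, h3, h4, h5, _⟩ := hph false false A.card fl
  refine ⟨A, h4.symm, ?_, ?_, ?_⟩
  · intro hs; rw [h3] at hs; exact absurd hs (by simp)
  · rw [h1, h2, h5, reps_single]; exact hfl
  · rw [h1, h2, reps_single]; exact h

theorem Sol.one {FE FO : List ℕ} {e : Bool} {ph : Bool → Bool → ℕ → ℕ → Ph}
    (hph : IsPh FE FO e ph) {l : List Ph} {p : Multiset G} {A : Multiset V} (hA : A.card = 1)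
    (h : Sol FE FO l (p + fam e A)) : Sol FE FO (ph false true 1 0 :: l) p := by
  obtain ⟨h1, h2, h3, h4, h5, _⟩ := hph false true 1 0
  refine ⟨A, by rw [h4, hA], ?_, ?_, ?_⟩
  · intro _
    obtain ⟨v, rfl⟩ := Multiset.card_eq_one.1 hA
    exact Multiset.nodup_singleton v
  · rw [h5]; exact Or.inl rfl
  · rw [h1, h2, reps_single]; exact h

theorem Sol.split {FE FO : List ℕ} {e : Bool} {ph : Bool → Bool → ℕ → ℕ → Ph}
    (hph : IsPh FE FO e ph) {l : List Ph} {p : Multiset G} {A : Multiset V}
    (hA : ∀ v, A.count v ≤ 2) {n : ℕ} (hn : A.card = n) (fl : ℕ)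
    (hfl : Filt fl (p + fam e A)) (h : Sol FE FO l (p + fam e A)) :
    ∃ x, 2 * x ≤ n ∧ Sol FE FO (ph true true x 0 :: ph false true (n - 2 * x) fl :: l) p := by
  obtain ⟨X, Y, hX, hY, hXY⟩ := split_two A hA
  have hc : A.card = 2 * X.card + Y.card := by
    rw [hXY, Multiset.card_add, Multiset.card_nsmul]
  refine ⟨X.card, by omega, ?_⟩
  obtain ⟨h1, h2, h3, h4, h5, _⟩ := hph true true X.card 0
  obtain ⟨g1, g2, g3, g4, g5, _⟩ := hph false true (n - 2 * X.card) fl
  have e1 : p + reps e true X + reps e false Y = p + fam e A := by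
    rw [hXY, fam_split, add_assoc]
  refine ⟨X, h4.symm, fun _ => hX, ?_, ?_⟩
  · rw [h5]; exact Or.inl rfl
  · rw [h1, h2]
    refine ⟨Y, by rw [g4]; omega, fun _ => hY, ?_, ?_⟩
    · rw [g1, g2, g5, e1]; exact hfl
    · rw [g1, g2, e1]; exact h

/-- multiplicities are at most two -/
theorem count_le_two {FE FO : List ℕ} {e : Bool} (h3 : 3 ∈ cond e FO FE) {p : Multiset G}
    (hp : ¬ Bad FE FO p) {A : Multiset V} (hA : fam e A ≤ p) (v : V) : A.count v ≤ 2 := by
  by_contra hcon
  push Not at hcon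
  apply hp
  have h1 : Multiset.replicate 3 v ≤ A := Multiset.le_count_iff_replicate_le.1 hcon
  refine ⟨fam e (Multiset.replicate 3 v), (fam_mono e h1).trans hA, ?_⟩
  have h2 : (Multiset.replicate 3 v).sum = 0 := by
    rw [Multiset.sum_replicate]
    funext i
    simp only [Pi.smul_apply, Pi.zero_apply]
    generalize v i = a
    revert a
    decide
  rw [fam_card, fam_sum, h2, Multiset.card_replicate]
  cases e
  · left
    refine ⟨h3, ?_⟩
    simp [lab]
  · right
    refine ⟨h3, ?_⟩
    simp only [lab, cond_true, mul_one]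
    congr 1

/-! ## The lists of forbidden lengths -/

/-- list -/
abbrev FU : List ℕ := [1, 2, 3, 4, 5, 12, 13, 14]
/-- list -/
abbrev FK : List ℕ := [1, 2, 3, 4, 5, 6]
/-- list -/
abbrev FA : List ℕ := [1, 2, 3, 4]
/-- list -/
abbrev FB : List ℕ := [1, 2, 3, 4, 5, 6, 11, 12, 13, 14]
/-- list -/
abbrev FB' : List ℕ := [1, 2, 3, 8, 9, 10, 11, 12, 13]
/-- list -/
abbrev FC : List ℕ := [1, 2, 3, 4, 5, 6, 10, 11, 12, 13]
/-- list -/
abbrev FC' : List ℕ := [1, 2, 3, 7, 8, 9, 10, 11, 12]

theorem isU0 : IsPh FU [] false phU0 := by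
  intro d s c f
  refine ⟨rfl, rfl, rfl, rfl, rfl, ?_, ?_⟩
  · exact (by decide +kernel : (phU0 false false 0 0).Ma = mask FU 0)
  · exact (by decide +kernel : (phU0 false false 0 0).Mb = mask [] 1)

theorem isK0 : IsPh FK [] false phK0 := by
  intro d s c f
  refine ⟨rfl, rfl, rfl, rfl, rfl, ?_, ?_⟩
  · exact (by decide +kernel : (phK0 false false 0 0).Ma = mask FK 0)
  · exact (by decide +kernel : (phK0 false false 0 0).Mb = mask [] 1)

theorem isK1 : IsPh FK [] true phK1 := by
  intro d s c f
  refine ⟨rfl, rfl, rfl, rfl, rfl, ?_, ?_⟩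
  · exact (by decide +kernel : (phK1 false false 0 0).Ma = mask [] 0)
  · exact (by decide +kernel : (phK1 false false 0 0).Mb = mask FK 1)

theorem isA0 : IsPh FK FA false phA0 := by
  intro d s c f
  refine ⟨rfl, rfl, rfl, rfl, rfl, ?_, ?_⟩
  · exact (by decide +kernel : (phA0 false false 0 0).Ma = mask FK 0)
  · exact (by decide +kernel : (phA0 false false 0 0).Mb = mask FA 1)

theorem isA1 : IsPh FK FA true phA1 := by
  intro d s c f
  refine ⟨rfl, rfl, rfl, rfl, rfl, ?_, ?_⟩
  · exact (by decide +kernel : (phA1 false false 0 0).Ma = mask FA 0)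
  · exact (by decide +kernel : (phA1 false false 0 0).Mb = mask FK 1)

theorem isB0 : IsPh FB FB' false phB0 := by
  intro d s c f
  refine ⟨rfl, rfl, rfl, rfl, rfl, ?_, ?_⟩
  · exact (by decide +kernel : (phB0 false false 0 0).Ma = mask FB 0)
  · exact (by decide +kernel : (phB0 false false 0 0).Mb = mask FB' 1)

theorem isB1 : IsPh FB FB' true phB1 := by
  intro d s c f
  refine ⟨rfl, rfl, rfl, rfl, rfl, ?_, ?_⟩
  · exact (by decide +kernel : (phB1 false false 0 0).Ma = mask FB' 0)
  · exact (by decide +kernel : (phB1 false false 0 0).Mb = mask FB 1)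

theorem isC0 : IsPh FC FC' false phC0 := by
  intro d s c f
  refine ⟨rfl, rfl, rfl, rfl, rfl, ?_, ?_⟩
  · exact (by decide +kernel : (phC0 false false 0 0).Ma = mask FC 0)
  · exact (by decide +kernel : (phC0 false false 0 0).Mb = mask FC' 1)

theorem isC1 : IsPh FC FC' true phC1 := by
  intro d s c f
  refine ⟨rfl, rfl, rfl, rfl, rfl, ?_, ?_⟩
  · exact (by decide +kernel : (phC1 false false 0 0).Ma = mask FC' 0)
  · exact (by decide +kernel : (phC1 false false 0 0).Mb = mask FC 1)

theorem f51_eq : f51 = 2 ^ (pos 5 1 0) := by decide +kernel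

theorem f61_eq : f61 = 2 ^ (pos 6 1 0) := by decide +kernel

theorem filt51 {p : Multiset G} {C : Multiset V} (hC : C.card = 5) (h0 : C.sum = 0)
    (hp : fam true C ≤ p) : Filt f51 p := by
  refine Or.inr ⟨5, by norm_num, 1, f51_eq, fam true C, hp, by rw [fam_card, hC], ?_⟩
  rw [fam_sum, h0, hC]
  congr 1

theorem filt61 {p : Multiset G} {D C : Multiset V} (hD : D.card = 1) (hC : C.card = 5)
    (h0 : D.sum + C.sum = 0) (hp : fam false D + fam true C ≤ p) : Filt f61 p := by
  refine Or.inr ⟨6, by norm_num, 1, f61_eq, fam false D + fam true C, hp, ?_, ?_⟩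
  · rw [Multiset.card_add, fam_card, fam_card, hC, hD]
  · rw [Multiset.sum_add, fam_sum, fam_sum, hC, hD, Prod.mk_add_mk, h0]
    congr 1

/-! ## The searches -/

/-- Every sequence of 14 vectors has a zero sum subsequence of length at most 5 or at least 12. -/
theorem lemmaU (A : Multiset V) (hA : A.card = 14) :
    ∃ T ≤ A, T.card ∈ FU ∧ T.sum = 0 := by
  by_contra hcon
  have hp : ¬ Bad FU [] (0 + fam false A) := by
    rintro ⟨T, hT, h | h⟩
    · rw [zero_add] at hT
      obtain ⟨N, h1, h2⟩ := le_map_lift _ A T hT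
      apply hcon
      refine ⟨N, h1, ?_, ?_⟩
      · have : T.card = N.card := by rw [← h2, Multiset.card_map]
        rw [← this]; exact h.1
      · have h3 : (fam false N).sum = T.sum := by rw [← h2]; rfl
        rw [fam_sum, h.2] at h3
        exact congrArg Prod.fst h3
    · exact absurd h.1 (by simp)
  have hc2 := count_le_two (e := false) (by simp) hp (A := A) (by rw [zero_add])
  obtain ⟨x, hx, hsol⟩ := Sol.split isU0 (l := []) (p := 0) hc2 hA 0 (Or.inl rfl) hp
  refine no_sol (FE := FU) (FO := []) (by decide) (by decide) ?_ (all_iU x (by omega)) hsol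
  intro q hq
  simp only [iU, List.mem_cons, List.not_mem_nil, or_false] at hq
  rcases hq with rfl | rfl
  · exact (isU0 _ _ _ _).2.2.2.2.2
  · exact (isU0 _ _ _ _).2.2.2.2.2

theorem search_K (A : Multiset V) (hA : A.card = 12) : Bad FK [] (fam false A) := by
  by_contra hp0
  have hp : ¬ Bad FK [] (0 + fam false A) := by rwa [zero_add]
  have hc2 := count_le_two (e := false) (by simp) hp (A := A) (by rw [zero_add])
  obtain ⟨x, hx, hsol⟩ := Sol.split isK0 (l := []) (p := 0) hc2 hA 0 (Or.inl rfl) hp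
  refine no_sol (FE := FK) (FO := []) (by decide) (by decide) ?_ (all_iK x (by omega)) hsol
  intro q hq
  simp only [iK, List.mem_cons, List.not_mem_nil, or_false] at hq
  rcases hq with rfl | rfl <;> exact (isK0 _ _ _ _).2.2.2.2.2

theorem search_S (A B : Multiset V) (hA : A.card = 11) (hB : B.card = 6) :
    Bad FK [] (fam false A + fam true B) := by
  by_contra hp0
  have hp : ¬ Bad FK [] (0 + fam false A + fam true B) := by rwa [zero_add]
  have hc2 := count_le_two (e := false) (by simp) hp0 (A := A) (Multiset.le_add_right _ _)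
  have h1 := Sol.loose isK1 (l := []) (p := 0 + fam false A) (A := B) 0 (Or.inl rfl) hp
  obtain ⟨x, hx, hsol⟩ := Sol.split isK0 (p := 0) hc2 hA 0 (Or.inl rfl) h1
  rw [hB] at hsol
  refine no_sol (FE := FK) (FO := []) (by decide) (by decide) ?_ (all_iS x (by omega)) hsol
  intro q hq
  simp only [iS, List.mem_cons, List.not_mem_nil, or_false] at hq
  rcases hq with rfl | rfl | rfl
  · exact (isK0 _ _ _ _).2.2.2.2.2
  · exact (isK0 _ _ _ _).2.2.2.2.2
  · exact (isK1 _ _ _ _).2.2.2.2.2

/-- common part of the searches with an odd block of five labels one, `n` elements with label zero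
and two further elements with label one -/
theorem search_T {FE FO : List ℕ} (hFE : ∀ k ∈ FE, 1 ≤ k ∧ k ≤ 14)
    (hFO : ∀ k ∈ FO, 1 ≤ k ∧ k ≤ 14) (h3 : 3 ∈ FE) (h3' : 3 ∈ FO)
    {ph0 ph1 : Bool → Bool → ℕ → ℕ → Ph} (h0 : IsPh FE FO false ph0) (h1 : IsPh FE FO true ph1)
    (n : ℕ) (hrun : ∀ y x, y ≤ 2 → 2 * x ≤ n → run [ph1 true true y 0, ph1 false true (5 - 2 * y) f51,
      ph0 true true x 0, ph0 false true (n - 2 * x) 0, ph1 false false 2 0] st0 1 = true)
    (C A B : Multiset V) (hC : C.card = 5) (hC0 : C.sum = 0) (hA : A.card = n) (hB : B.card = 2) :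
    Bad FE FO (fam true C + fam false A + fam true B) := by
  by_contra hp0
  have hp : ¬ Bad FE FO (0 + fam true C + fam false A + fam true B) := by rwa [zero_add]
  have hcC := count_le_two (e := true) h3' hp (A := C) (by
    rw [zero_add, add_assoc]; exact Multiset.le_add_right _ _)
  have hcA := count_le_two (e := false) h3 hp (A := A) (by
    rw [zero_add, add_comm (fam true C), add_assoc]; exact Multiset.le_add_right _ _)
  have g1 := Sol.loose h1 (l := []) (p := 0 + fam true C + fam false A) (A := B) 0 (Or.inl rfl) hp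
  obtain ⟨x, hx, g2⟩ := Sol.split h0 (p := 0 + fam true C) hcA hA 0 (Or.inl rfl) g1
  obtain ⟨y, hy, g3⟩ := Sol.split h1 (p := 0) hcC hC f51
    (filt51 hC hC0 (by rw [zero_add])) g2
  rw [hB] at g3
  refine no_sol hFE hFO ?_ (hrun y x (by omega) hx) g3
  intro q hq
  simp only [List.mem_cons, List.not_mem_nil, or_false] at hq
  rcases hq with rfl | rfl | rfl | rfl | rfl
  · exact (h1 _ _ _ _).2.2.2.2.2
  · exact (h1 _ _ _ _).2.2.2.2.2
  · exact (h0 _ _ _ _).2.2.2.2.2
  · exact (h0 _ _ _ _).2.2.2.2.2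
  · exact (h1 _ _ _ _).2.2.2.2.2

/-- the same without further elements with label one -/
theorem search_Z {FE FO : List ℕ} (hFE : ∀ k ∈ FE, 1 ≤ k ∧ k ≤ 14)
    (hFO : ∀ k ∈ FO, 1 ≤ k ∧ k ≤ 14) (h3 : 3 ∈ FE) (h3' : 3 ∈ FO)
    {ph0 ph1 : Bool → Bool → ℕ → ℕ → Ph} (h0 : IsPh FE FO false ph0) (h1 : IsPh FE FO true ph1)
    (n : ℕ) (hrun : ∀ y x, y ≤ 2 → 2 * x ≤ n → run [ph1 true true y 0, ph1 false true (5 - 2 * y) f51,
      ph0 true true x 0, ph0 false true (n - 2 * x) 0] st0 1 = true)
    (C A : Multiset V) (hC : C.card = 5) (hC0 : C.sum = 0) (hA : A.card = n) :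
    Bad FE FO (fam true C + fam false A) := by
  by_contra hp0
  have hp : ¬ Bad FE FO (0 + fam true C + fam false A) := by rwa [zero_add]
  have hcC := count_le_two (e := true) h3' hp0 (A := C) (Multiset.le_add_right _ _)
  have hcA := count_le_two (e := false) h3 hp0 (A := A) (Multiset.le_add_left _ _)
  obtain ⟨x, hx, g2⟩ := Sol.split h0 (l := []) (p := 0 + fam true C) hcA hA 0 (Or.inl rfl) hp
  obtain ⟨y, hy, g3⟩ := Sol.split h1 (p := 0) hcC hC f51
    (filt51 hC hC0 (by rw [zero_add])) g2
  refine no_sol hFE hFO ?_ (hrun y x (by omega) hx) g3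
  intro q hq
  simp only [List.mem_cons, List.not_mem_nil, or_false] at hq
  rcases hq with rfl | rfl | rfl | rfl
  · exact (h1 _ _ _ _).2.2.2.2.2
  · exact (h1 _ _ _ _).2.2.2.2.2
  · exact (h0 _ _ _ _).2.2.2.2.2
  · exact (h0 _ _ _ _).2.2.2.2.2

/-- the same with an odd block of one label zero and five labels one -/
theorem search_N {FE FO : List ℕ} (hFE : ∀ k ∈ FE, 1 ≤ k ∧ k ≤ 14)
    (hFO : ∀ k ∈ FO, 1 ≤ k ∧ k ≤ 14) (h3 : 3 ∈ FE) (h3' : 3 ∈ FO)
    {ph0 ph1 : Bool → Bool → ℕ → ℕ → Ph} (h0 : IsPh FE FO false ph0) (h1 : IsPh FE FO true ph1)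
    (n : ℕ) (hrun : ∀ y x, y ≤ 2 → 2 * x ≤ n → run [ph0 false true 1 0, ph1 true true y 0,
      ph1 false true (5 - 2 * y) f61, ph0 true true x 0, ph0 false true (n - 2 * x) 0] st0 1 = true)
    (D C A : Multiset V) (hD : D.card = 1) (hC : C.card = 5) (hC0 : D.sum + C.sum = 0)
    (hA : A.card = n) : Bad FE FO (fam false D + fam true C + fam false A) := by
  by_contra hp0
  have hp : ¬ Bad FE FO (0 + fam false D + fam true C + fam false A) := by rwa [zero_add]
  have hcC := count_le_two (e := true) h3' hp (A := C) (by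
    rw [zero_add, add_comm (fam false D), add_assoc]; exact Multiset.le_add_right _ _)
  have hcA := count_le_two (e := false) h3 hp0 (A := A) (Multiset.le_add_left _ _)
  obtain ⟨x, hx, g2⟩ := Sol.split h0 (l := []) (p := 0 + fam false D + fam true C) hcA hA 0
    (Or.inl rfl) hp
  obtain ⟨y, hy, g3⟩ := Sol.split h1 (p := 0 + fam false D) hcC hC f61
    (filt61 hD hC hC0 (by rw [zero_add])) g2
  have g4 := Sol.one h0 (p := 0) hD g3
  refine no_sol hFE hFO ?_ (hrun y x (by omega) hx) g4
  intro q hq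
  simp only [List.mem_cons, List.not_mem_nil, or_false] at hq
  rcases hq with rfl | rfl | rfl | rfl | rfl
  · exact (h0 _ _ _ _).2.2.2.2.2
  · exact (h1 _ _ _ _).2.2.2.2.2
  · exact (h1 _ _ _ _).2.2.2.2.2
  · exact (h0 _ _ _ _).2.2.2.2.2
  · exact (h0 _ _ _ _).2.2.2.2.2

theorem search_Q1 (C A B : Multiset V) (hC : C.card = 5) (hC0 : C.sum = 0) (hA : A.card = 6)
    (hB : B.card = 2) : Bad FK FA (fam true C + fam false A + fam true B) :=
  search_T (by decide) (by decide) (by decide) (by decide) isA0 isA1 6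
    (fun y x hy hx => all_iQ1 y x hy (by omega)) C A B hC hC0 hA hB

theorem search_Q3 (C A B : Multiset V) (hC : C.card = 5) (hC0 : C.sum = 0) (hA : A.card = 7)
    (hB : B.card = 2) : Bad FB FB' (fam true C + fam false A + fam true B) :=
  search_T (by decide) (by decide) (by decide) (by decide) isB0 isB1 7
    (fun y x hy hx => all_iQ3 y x hy (by omega)) C A B hC hC0 hA hB

theorem search_Q4 (C A B : Multiset V) (hC : C.card = 5) (hC0 : C.sum = 0) (hA : A.card = 6)
    (hB : B.card = 2) : Bad FC FC' (fam true C + fam false A + fam true B) :=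
  search_T (by decide) (by decide) (by decide) (by decide) isC0 isC1 6
    (fun y x hy hx => all_iQ4 y x hy (by omega)) C A B hC hC0 hA hB

theorem search_Q5z (C A : Multiset V) (hC : C.card = 5) (hC0 : C.sum = 0) (hA : A.card = 9) :
    Bad FB FB' (fam true C + fam false A) :=
  search_Z (by decide) (by decide) (by decide) (by decide) isB0 isB1 9
    (fun y x hy hx => all_iQ5z y x hy (by omega)) C A hC hC0 hA

theorem search_Q6z (C A : Multiset V) (hC : C.card = 5) (hC0 : C.sum = 0) (hA : A.card = 8) :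
    Bad FC FC' (fam true C + fam false A) :=
  search_Z (by decide) (by decide) (by decide) (by decide) isC0 isC1 8
    (fun y x hy hx => all_iQ6z y x hy (by omega)) C A hC hC0 hA

theorem search_Q5n (D C A : Multiset V) (hD : D.card = 1) (hC : C.card = 5)
    (hC0 : D.sum + C.sum = 0) (hA : A.card = 8) :
    Bad FB FB' (fam false D + fam true C + fam false A) :=
  search_N (by decide) (by decide) (by decide) (by decide) isB0 isB1 8
    (fun y x hy hx => all_iQ5n y x hy (by omega)) D C A hD hC hC0 hA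

theorem search_Q6n (D C A : Multiset V) (hD : D.card = 1) (hC : C.card = 5)
    (hC0 : D.sum + C.sum = 0) (hA : A.card = 7) :
    Bad FC FC' (fam false D + fam true C + fam false A) :=
  search_N (by decide) (by decide) (by decide) (by decide) isC0 isC1 7
    (fun y x hy hx => all_iQ6n y x hy (by omega)) D C A hD hC hC0 hA

end Pool.Agent.Q152.C0
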