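import Pool.Agent.Q152.C0.Loop
import Pool.Agent.Q152.C0.Inst

/-!
# Soundness of the search
-/

set_option maxRecDepth 100000

namespace Pool.Agent.Q152.C0

/-- the elements added for the vectors `M` -/
def reps (e dbl : Bool) (M : Multiset V) : Multiset G :=
  (cond dbl 2 1 : ℕ) • M.map (fun v => (v, lab e))

theorem reps_zero (e dbl : Bool) : reps e dbl 0 = 0 := by simp [reps]

theorem reps_cons (e dbl : Bool) (v : V) (M : Multiset V) :
    reps e dbl (v ::ₘ M) = reps e dbl {v} + reps e dbl M := by
  unfold reps
  rw [← nsmul_add, ← Multiset.map_add, Multiset.singleton_add]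

/-- automorphism of vectors acting on labelled vectors -/
def Phi (φ : V ≃+ V) (g : G) : G := (φ g.1, g.2)

theorem Phi_sum (φ : V ≃+ V) (T : Multiset G) :
    (T.map (Phi φ)).sum = (φ T.sum.1, T.sum.2) := by
  induction T using Multiset.induction with
  | empty => simp; rfl
  | cons a T ih =>
    rw [Multiset.map_cons, Multiset.sum_cons, Multiset.sum_cons, ih]
    simp [Phi, map_add]

theorem reps_map (e dbl : Bool) (φ : V ≃+ V) (M : Multiset V) :
    (reps e dbl M).map (Phi φ) = reps e dbl (M.map φ) := by
  unfold reps
  rw [Multiset.map_nsmul, Multiset.map_map, Multiset.map_map]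
  rfl

theorem map_symm (φ : V ≃+ V) (p : Multiset G) : (p.map (Phi φ)).map (Phi φ.symm) = p := by
  rw [Multiset.map_map]
  conv_rhs => rw [← Multiset.map_id p]
  apply Multiset.map_congr rfl
  intro g _
  simp [Phi]

theorem Bad.aut {FE FO : List ℕ} {p : Multiset G} (h : Bad FE FO p) (φ : V ≃+ V) :
    Bad FE FO (p.map (Phi φ)) := by
  obtain ⟨T, h1, h2⟩ := h
  refine ⟨T.map (Phi φ), Multiset.map_le_map h1, ?_⟩
  rw [Multiset.card_map, Phi_sum]
  rcases h2 with ⟨h2, h3⟩ | ⟨h2, h3⟩
  · left; refine ⟨h2, ?_⟩; rw [h3]; simp
  · right; refine ⟨h2, ?_⟩; rw [h3]; simp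

theorem not_bad_aut {FE FO : List ℕ} {p : Multiset G} (h : ¬ Bad FE FO p) (φ : V ≃+ V) :
    ¬ Bad FE FO (p.map (Phi φ)) := by
  intro h2
  apply h
  have := h2.aut φ.symm
  rwa [map_symm] at this

/-- invariant: `P` is the power of 3 belonging to the dimension reached -/
def PP (P : ℕ) (p : Multiset G) : Prop := ∃ d ≤ 4, P = 3 ^ d ∧ ∀ g ∈ p, InW d g.1

/-- one step -/
noncomputable def stp (e : Bool) : ℕ → ℕ → ℕ :=
  Bool.rec (motive := fun _ => Nat → Nat → Nat) step0 step1 e

theorem Rep.stp {s : ℕ} {p : Multiset G} (h : Rep s p) {x : ℕ} (hx : x < 81) (e : Bool) :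
    Rep (stp e x s) ((dec x, lab e) ::ₘ p) := by
  cases e
  · exact h.cons0 hx
  · exact h.cons1 hx

/-- the state after the element has been added once or twice -/
noncomputable def sfin (e dbl : Bool) (g s : ℕ) : ℕ :=
  Bool.rec (motive := fun _ => Nat) (stp e g s) (stp e g (stp e g s)) dbl

theorem Rep.sfin {s : ℕ} {p : Multiset G} (h : Rep s p) {x : ℕ} (hx : x < 81) (e dbl : Bool) :
    Rep (sfin e dbl x s) (reps e dbl {dec x} + p) := by
  cases dbl
  · have h1 : reps e false {dec x} + p = (dec x, lab e) ::ₘ p := by
      simp [reps]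
    rw [h1]
    exact h.stp hx e
  · have h1 : reps e true {dec x} + p = (dec x, lab e) ::ₘ (dec x, lab e) ::ₘ p := by
      simp [reps, two_nsmul]
    rw [h1]
    exact (h.stp hx e).stp hx e

/-- the body of the loop -/
noncomputable def bodyF (e dbl str : Bool) (Ma Mb s P : Nat) (ih : Nat → Nat → Nat → Bool)
    (g m' : Nat) : Bool :=
  (fun s1 => Bool.rec (motive := fun _ => Bool)
    ((fun s' => Bool.rec (motive := fun _ => Bool)
      (ih s' P (Bool.rec (motive := fun _ => Nat) (Nat.lor m' (Nat.pow 2 (Nat.add g 64))) m' str))
      (ih s' (Nat.mul 3 P) (rng (Bool.rec (motive := fun _ => Nat) P (Nat.succ P) str)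
        (Nat.mul 3 P))) (Nat.beq g P))
      (Bool.rec (motive := fun _ => Nat) s1 (stp e g s1) dbl))
    true
    (Bool.rec (motive := fun _ => Bool) false
      (Nat.beq (Nat.land (Nat.shiftRight (forb Ma Mb s1) g) 1) 1) dbl))
    (stp e g s)

theorem phS_succ (e dbl str : Bool) (Ma Mb : Nat) (k : Nat → Nat → Bool) (r s P base : Nat) :
    phS e dbl str Ma Mb k (r + 1) s P base =
      Nat.rec (motive := fun _ => Bool) false (fun _ _ => true)
        (loop (Bool.rec (motive := fun _ => Nat) 0 ((r + 1) * (P / 81)) str)
          (bodyF e dbl str Ma Mb s P (phS e dbl str Ma Mb k r)) 82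
          (cand base (forb Ma Mb s) s)) := rfl

theorem phS_zero (e dbl str : Bool) (Ma Mb : Nat) (k : Nat → Nat → Bool) (s P base : Nat) :
    phS e dbl str Ma Mb k 0 s P base = k s P := rfl

theorem tb_beq (F g : ℕ) : Nat.beq (Nat.land (Nat.shiftRight F g) 1) 1 = Nat.testBit F g := by
  rw [nbeq, Nat.testBit_eq_decide_div_mod_eq]
  show decide ((F >>> g) &&& 1 = 1) = _
  rw [Nat.and_one_is_mod, Nat.shiftRight_eq_div_pow]

theorem bodyF_true {e dbl str : Bool} {Ma Mb s P : Nat} {ih : Nat → Nat → Nat → Bool}
    {g m' : Nat} (h : bodyF e dbl str Ma Mb s P ih g m' = true)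
    (hnb : dbl = true → Nat.testBit (forb Ma Mb (stp e g s)) g = false) :
    (g = P → ih (sfin e dbl g s) (3 * P) (rng (cond str (P + 1) P) (3 * P)) = true) ∧
    (g ≠ P → ih (sfin e dbl g s) P (cond str m' (m' ||| 2 ^ (g + 64))) = true) := by
  have h1 : bodyF e dbl str Ma Mb s P ih g m' = Bool.rec (motive := fun _ => Bool)
      (ih (sfin e dbl g s) P
        (Bool.rec (motive := fun _ => Nat) (Nat.lor m' (Nat.pow 2 (Nat.add g 64))) m' str))
      (ih (sfin e dbl g s) (Nat.mul 3 P) (rng (Bool.rec (motive := fun _ => Nat) P (Nat.succ P) str)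
        (Nat.mul 3 P))) (Nat.beq g P) := by
    cases dbl
    · rfl
    · have h2 := hnb rfl
      rw [← tb_beq] at h2
      show Bool.rec (motive := fun _ => Bool) _ true
        (Nat.beq (Nat.land (Nat.shiftRight (forb Ma Mb (stp e g s)) g) 1) 1) = _
      rw [h2]
      rfl
  rw [h1] at h
  constructor
  · intro hg
    rw [hg] at h ⊢
    have : Nat.beq P P = true := by rw [nbeq]; simp
    rw [this] at h
    cases str
    · exact h
    · exact h
  · intro hg
    have : Nat.beq g P = false := by rw [nbeq]; simp [hg]
    rw [this] at h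
    cases str
    · exact h
    · exact h

theorem tb_cand (base F s i : ℕ) : Nat.testBit (cand base F s) (64 + i) =
    (Nat.testBit base (64 + i) && !(Nat.testBit F i)) := by
  rw [cand_eq, Nat.testBit_or, Nat.testBit_shiftLeft, Nat.testBit_and,
    Nat.testBit_two_pow_sub_one, Nat.testBit_xor, Nat.testBit_or, Nat.testBit_shiftRight]
  have h1 : 64 + i - 64 = i := by omega
  have h2 : ¬ (64 + i < 64) := by omega
  have h3 : 64 + i ≥ 64 := by omega
  rw [h1]
  simp only [h2, h3, decide_true, decide_false, Bool.true_and, Bool.and_false, Bool.or_false]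
  cases Nat.testBit base (64 + i) <;> cases Nat.testBit F i <;> rfl

/-- the base mask allows the vector -/
def BaseOK (base P : ℕ) (v : V) : Prop :=
  (code v < P → Nat.testBit base (64 + code v) = true) ∧
  (P ≤ code v → Nat.testBit base (64 + P) = true)

theorem cons_le_reps {e dbl : Bool} {M : Multiset V} {v : V} (hv : v ∈ M) (p : Multiset G) :
    ((v, lab e) ::ₘ p) ≤ p + reps e dbl M := by
  rw [← Multiset.singleton_add, add_comm]
  apply add_le_add_right
  have h1 : ({(v, lab e)} : Multiset G) ≤ M.map (fun v => (v, lab e)) := by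
    rw [Multiset.singleton_le]
    exact Multiset.mem_map_of_mem _ hv
  refine h1.trans ?_
  unfold reps
  cases dbl
  · simp
  · simp only [cond_true, two_nsmul]
    exact Multiset.le_add_right _ _

theorem cons_cons_le_reps {e : Bool} {M : Multiset V} {v : V} (hv : v ∈ M) (p : Multiset G) :
    ((v, lab e) ::ₘ (v, lab e) ::ₘ p) ≤ p + reps e true M := by
  have h0 : ((v, lab e) ::ₘ (v, lab e) ::ₘ p) = p + ({(v, lab e)} + {(v, lab e)}) := by
    rw [← Multiset.singleton_add, ← Multiset.singleton_add, ← add_assoc, add_comm]
  rw [h0]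
  apply add_le_add_right
  have h1 : ({(v, lab e)} : Multiset G) ≤ M.map (fun v => (v, lab e)) := by
    rw [Multiset.singleton_le]
    exact Multiset.mem_map_of_mem _ hv
  unfold reps
  simp only [cond_true, two_nsmul]
  exact add_le_add h1 h1

theorem map_fixed {φ : V ≃+ V} {d : ℕ} (hφ : ∀ w, InW d w → φ w = w) {p : Multiset G}
    (hp : ∀ g ∈ p, InW d g.1) : p.map (Phi φ) = p := by
  conv_rhs => rw [← Multiset.map_id p]
  apply Multiset.map_congr rfl
  intro g hg
  simp only [Phi, id]
  rw [hφ _ (hp g hg)]

/-- soundness of one phase -/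
theorem phS_sound {FE FO : List ℕ} (hFE : ∀ k ∈ FE, 1 ≤ k ∧ k ≤ 14)
    (hFO : ∀ k ∈ FO, 1 ≤ k ∧ k ≤ 14) {e dbl str : Bool} {Ma Mb : ℕ}
    (hMa : Ma = mask (cond e FO FE) 0) (hMb : Mb = mask (cond e FE FO) 1)
    {k : ℕ → ℕ → Bool} {K : Multiset G → Prop}
    (hk : ∀ s P p, Rep s p → PP P p → k s P = true → ¬ K p)
    (hKaut : ∀ (φ : V ≃+ V) (p : Multiset G), K p → K (p.map (Phi φ)))
    (hKbad : ∀ p, K p → ¬ Bad FE FO p) :
    ∀ (r s P base : ℕ) (p : Multiset G), Rep s p → PP P p →
      (∀ i, 81 ≤ i → Nat.testBit base (64 + i) = false) →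
      phS e dbl str Ma Mb k r s P base = true →
      ∀ M : Multiset V, M.card = r → (str = true → M.Nodup) → (∀ v ∈ M, BaseOK base P v) →
        ¬ K (p + reps e dbl M) := by
  intro r
  induction r with
  | zero =>
    intro s P base p hs hP _ h M hM _ _ hK
    rw [Multiset.card_eq_zero] at hM
    rw [hM, reps_zero, add_zero] at hK
    rw [phS_zero] at h
    exact hk s P p hs hP h hK
  | succ r ih =>
    intro s P base p hs hP hbase h M hM hnd hbo hK
    rw [phS_succ] at h
    set thr := (Bool.rec (motive := fun _ => Nat) 0 ((r + 1) * (P / 81)) str : ℕ) with hthr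
    set F := forb Ma Mb s with hF
    obtain ⟨c, hc⟩ : ∃ c, loop thr (bodyF e dbl str Ma Mb s P (phS e dbl str Ma Mb k r)) 82
        (cand base F s) = c + 1 := by
      cases hl : loop thr (bodyF e dbl str Ma Mb s P (phS e dbl str Ma Mb k r)) 82
        (cand base F s) with
      | zero => rw [hl] at h; exact absurd h (by simp)
      | succ c => exact ⟨c, rfl⟩
    obtain ⟨d, hd, hPd, hpW⟩ := hP
    -- the vectors of a solution are not forbidden
    have hfree : ∀ M1 : Multiset V, K (p + reps e dbl M1) → ∀ v ∈ M1,
        Nat.testBit F (code v) = false := by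
      intro M1 hK1 v hv
      by_contra hcon
      rw [Bool.not_eq_false] at hcon
      have h1 := forb_sound hFE hFO hs (code_lt v) hMa hMb hcon
      rw [dec_code] at h1
      exact hKbad _ hK1 (h1.mono (cons_le_reps hv p))
    have hm81 : ∀ i, 81 ≤ i → Nat.testBit (cand base F s) (64 + i) = false := by
      intro i hi
      rw [tb_cand, hbase i hi, Bool.false_and]
    have hspec := loop_spec 82 (cand base F s) c hm81 hc
    -- moving a vector outside the span to the next unit vector
    have hmove : ∀ v ∈ M, P ≤ code v → d < 4 ∧ ∃ φ : V ≃+ V, (∀ w, InW d w → φ w = w) ∧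
        code (φ v) = P ∧ K (p + reps e dbl (M.map φ)) := by
      intro v hv hPv
      have hd4 : d < 4 := by
        by_contra hcon
        have : d = 4 := by omega
        subst this
        have := code_lt v
        omega
      refine ⟨hd4, ?_⟩
      have hvW : ¬ InW d v := by
        rw [inW_iff hd]
        omega
      obtain ⟨φ, h1, h2⟩ := exists_aut hd4 hvW
      refine ⟨φ, h1, by rw [h2, hPd], ?_⟩
      have h3 := hKaut φ _ hK
      rwa [Multiset.map_add, reps_map, map_fixed h1 hpW] at h3
    by_cases hcase : ∃ v ∈ M, code v < P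
    · -- the smallest code below `P`
      set S : Finset ℕ := ((M.filter (fun v => code v < P)).map code).toFinset with hS
      have hmemS : ∀ i, i ∈ S ↔ ∃ v ∈ M, code v < P ∧ code v = i := by
        intro i
        rw [hS, Multiset.mem_toFinset, Multiset.mem_map]
        simp only [Multiset.mem_filter, and_assoc]
      have hSne : S.Nonempty := by
        obtain ⟨v, hv, hvP⟩ := hcase
        exact ⟨code v, (hmemS _).2 ⟨v, hv, hvP, rfl⟩⟩
      have hSm : ∀ i ∈ S, Nat.testBit (cand base F s) (64 + i) = true := by
        intro i hi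
        obtain ⟨v, hv, hvP, rfl⟩ := (hmemS i).1 hi
        rw [tb_cand, (hbo v hv).1 hvP, hfree M hK v hv]
        rfl
      have hthrS : thr ≤ S.card := by
        cases str
        · exact Nat.zero_le _
        · have hthr2 : thr = (r + 1) * (P / 81) := hthr
          by_cases hP81 : P = 81
          · have h1 : M.filter (fun v => code v < P) = M := by
              rw [Multiset.filter_eq_self]
              intro v _
              rw [hP81]
              exact code_lt v
            have h2 : S.card = M.card := by
              rw [hS, h1, Multiset.toFinset_card_of_nodup, Multiset.card_map]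
              exact (Multiset.Nodup.map (fun a b h => code_inj h) (hnd rfl))
            rw [h2, hM, hthr2, hP81]
            simp
          · have h1 : P / 81 = 0 := by
              have : P < 81 := by
                rw [hPd] at hP81 ⊢
                interval_cases d <;> omega
              exact Nat.div_eq_of_lt this
            rw [hthr2, h1, mul_zero]
            exact Nat.zero_le _
      set g := S.min' hSne with hg
      have hgS : g ∈ S := S.min'_mem hSne
      obtain ⟨m', hm', hbody⟩ := (hspec S hSm).2 g hgS (fun i hi => S.min'_le i hi) hthrS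
      obtain ⟨v0, hv0, hv0P, hv0g⟩ := (hmemS g).1 hgS
      have hg81 : g < 81 := by rw [← hv0g]; exact code_lt v0
      have hdec : dec g = v0 := by rw [← hv0g, dec_code]
      have hnb : dbl = true → Nat.testBit (forb Ma Mb (stp e g s)) g = false := by
        intro hdbl
        by_contra hcon
        rw [Bool.not_eq_false] at hcon
        have h1 := forb_sound hFE hFO (hs.stp hg81 e) hg81 hMa hMb hcon
        rw [hdec] at h1
        rw [hdbl] at hK
        exact hKbad _ hK (h1.mono (cons_cons_le_reps hv0 p))
      have hb := (bodyF_true hbody hnb).2 (by omega)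
      set base' := cond str m' (m' ||| 2 ^ (g + 64)) with hbase'
      have htb' : ∀ i, Nat.testBit base' (64 + i) =
          (Nat.testBit m' (64 + i) || (!str && decide (i = g))) := by
        intro i
        rw [hbase']
        cases str
        · simp only [cond_false, Bool.not_false, Bool.true_and]
          rw [Nat.testBit_or, Nat.testBit_two_pow]
          congr 1
          by_cases hig : i = g
          · subst hig
            simp [add_comm]
          · have : ¬ (g + 64 = 64 + i) := by omega
            simp [hig, this]
        · simp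
      refine ih (sfin e dbl g s) P base' (reps e dbl {dec g} + p) (hs.sfin hg81 e dbl)
        ⟨d, hd, hPd, ?_⟩ ?_ hb (M.erase v0) ?_ ?_ ?_ ?_
      · intro x hx
        rw [Multiset.mem_add] at hx
        rcases hx with hx | hx
        · have h1 : x = (dec g, lab e) := by
            unfold reps at hx
            rw [Multiset.map_singleton] at hx
            have := Multiset.mem_of_mem_nsmul hx
            simpa using this
          rw [h1]
          simp only
          rw [inW_iff hd, hdec]
          omega
        · exact hpW x hx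
      · intro i hi
        rw [htb', hm', hm81 i hi]
        have : i ≠ g := by omega
        simp [this]
      · rw [Multiset.card_erase_of_mem hv0, hM]; rfl
      · intro hst
        exact (hnd hst).erase v0
      · intro v hv
        have hvM : v ∈ M := Multiset.mem_of_mem_erase hv
        constructor
        · intro hvP
          rw [htb']
          have hvS : code v ∈ S := (hmemS _).2 ⟨v, hvM, hvP, rfl⟩
          have hgle : g ≤ code v := S.min'_le _ hvS
          by_cases hvg : code v = g
          · have hveq : v = v0 := code_inj (by rw [hvg, hv0g])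
            cases hst : str
            · simp [hvg]
            · exfalso
              rw [hveq] at hv
              exact (Multiset.Nodup.notMem_erase (hnd hst)) hv
          · have : g < code v := by omega
            rw [hm', hSm _ hvS]
            simp [this]
        · intro hPv
          obtain ⟨_, φ, h1, h2, h3⟩ := hmove v hvM hPv
          have h4 := hfree _ h3 (φ v) (Multiset.mem_map_of_mem _ hvM)
          rw [h2] at h4
          rw [htb', hm', tb_cand, (hbo v hvM).2 hPv, h4]
          have : g < P := by omega
          simp [this]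
      · have e1 : reps e dbl {dec g} + p + reps e dbl (M.erase v0) = p + reps e dbl M := by
          conv_rhs => rw [← Multiset.cons_erase hv0, reps_cons]
          rw [hdec]
          abel
        rw [e1]
        exact hK
    · -- all codes are at least `P`
      push Not at hcase
      obtain ⟨v0, hv0⟩ : ∃ v, v ∈ M := Multiset.card_pos_iff_exists_mem.1 (by omega)
      obtain ⟨hd4, φ, hφ1, hφ2, hφ3⟩ := hmove v0 hv0 (hcase v0 hv0)
      set M1 := M.map φ with hM1
      have hP81 : P < 81 := by rw [← hφ2]; exact code_lt _
      have hM1P : ∀ v ∈ M1, P ≤ code v := by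
        intro v hv
        rw [hM1, Multiset.mem_map] at hv
        obtain ⟨u, hu, rfl⟩ := hv
        by_contra hcon
        have h1 : InW d (φ u) := by rw [inW_iff hd]; omega
        have h2 : φ u = u := φ.injective (hφ1 _ h1)
        have h3 := hcase u hu
        rw [h2] at hcon
        exact hcon h3
      have hv1 : φ v0 ∈ M1 := Multiset.mem_map_of_mem _ hv0
      have hPm : Nat.testBit (cand base F s) (64 + P) = true := by
        have h4 := hfree _ hφ3 (φ v0) hv1
        rw [hφ2] at h4
        rw [tb_cand, (hbo v0 hv0).2 (hcase v0 hv0), h4]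
        rfl
      have hthr0 : thr ≤ 1 := by
        cases str
        · exact Nat.zero_le _
        · have hthr2 : thr = (r + 1) * (P / 81) := hthr
          rw [hthr2, Nat.div_eq_of_lt hP81, mul_zero]
          exact Nat.zero_le _
      obtain ⟨m', hm', hbody⟩ := (hspec {P} (by
        intro i hi
        rw [Finset.mem_singleton] at hi
        rw [hi]
        exact hPm)).2 P (Finset.mem_singleton_self P) (by
          intro i hi
          rw [Finset.mem_singleton] at hi
          omega) (by simpa using hthr0)
      have hdec : dec P = φ v0 := by rw [← hφ2, dec_code]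
      have hnb : dbl = true → Nat.testBit (forb Ma Mb (stp e P s)) P = false := by
        intro hdbl
        by_contra hcon
        rw [Bool.not_eq_false] at hcon
        have h1 := forb_sound hFE hFO (hs.stp hP81 e) hP81 hMa hMb hcon
        rw [hdec] at h1
        rw [hdbl] at hφ3
        exact hKbad _ hφ3 (h1.mono (cons_cons_le_reps hv1 p))
      have hb := (bodyF_true hbody hnb).1 rfl
      have hlo : cond str (P + 1) P ≤ 3 * P + 1 - 3 * P / 81 := by
        rw [hPd]
        interval_cases d <;> cases str <;> norm_num
      have htb' := tb_rng hlo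
      have h3P : 3 * P = 3 ^ (d + 1) := by rw [hPd, pow_succ]; ring
      have h3P81 : 3 * P ≤ 81 := by
        rw [hPd]
        interval_cases d <;> norm_num
      have hnd1 : str = true → M1.Nodup := fun hst => (hnd hst).map φ.injective
      refine ih (sfin e dbl P s) (3 * P) _ (reps e dbl {dec P} + p) (hs.sfin hP81 e dbl)
        ⟨d + 1, by omega, h3P, ?_⟩ ?_ hb (M1.erase (φ v0)) ?_ ?_ ?_ ?_
      · intro x hx
        rw [Multiset.mem_add] at hx
        rcases hx with hx | hx
        · have h1 : x = (dec P, lab e) := by
            unfold reps at hx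
            rw [Multiset.map_singleton] at hx
            have := Multiset.mem_of_mem_nsmul hx
            simpa using this
          rw [h1]
          simp only
          rw [inW_iff (by omega), hdec, hφ2, ← h3P]
          have : 0 < P := by rw [hPd]; positivity
          omega
        · exact inW_mono (by omega) (hpW x hx)
      · intro i hi
        rw [htb']
        have : ¬ (i < 3 * P + 1 - 3 * P / 81) := by omega
        simp [this]
      · rw [Multiset.card_erase_of_mem hv1, hM1, Multiset.card_map, hM]; rfl
      · intro hst
        exact (hnd1 hst).erase _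
      · intro v hv
        have hvM : v ∈ M1 := Multiset.mem_of_mem_erase hv
        have hPv := hM1P v hvM
        have hlov : cond str (P + 1) P ≤ code v := by
          cases hst : str
          · exact hPv
          · show P + 1 ≤ code v
            rcases Nat.lt_or_ge P (code v) with h1 | h1
            · exact h1
            · exfalso
              have h2 : code v = code (φ v0) := by omega
              rw [code_inj h2] at hv
              exact (Multiset.Nodup.notMem_erase (hnd1 hst)) hv
        have hv81 := code_lt v
        constructor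
        · intro hv3
          rw [htb']
          have h1 : code v < 3 * P + 1 - 3 * P / 81 := by omega
          simp [hlov, h1]
        · intro hv3
          rw [htb']
          have h1 : 3 * P < 3 * P + 1 - 3 * P / 81 := by omega
          have h2 : cond str (P + 1) P ≤ 3 * P := by
            have : 0 < P := by rw [hPd]; positivity
            cases str
            · show P ≤ 3 * P; omega
            · show P + 1 ≤ 3 * P; omega
          simp [h2, h1]
      · have e1 : reps e dbl {dec P} + p + reps e dbl (M1.erase (φ v0)) = p + reps e dbl M1 := by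
          conv_rhs => rw [← Multiset.cons_erase hv1, reps_cons]
          rw [hdec]
          abel
        rw [e1]
        exact hφ3

/-- the filter condition -/
def Filt (fl : ℕ) (p : Multiset G) : Prop :=
  fl = 0 ∨ ∃ k < 14, ∃ e : ZMod 2, fl = 2 ^ (pos k e 0) ∧ ∃ T ≤ p, T.card = k ∧ T.sum = (0, e)

/-- a solution of the search problem given by the phases `l`, starting from `p` -/
def Sol (FE FO : List ℕ) : List Ph → Multiset G → Prop
  | [], p => ¬ Bad FE FO p
  | q :: l, p => ∃ M : Multiset V, M.card = q.cnt ∧ (q.str = true → M.Nodup) ∧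
      Filt q.fl (p + reps q.e q.dbl M) ∧ Sol FE FO l (p + reps q.e q.dbl M)

theorem Filt.aut {fl : ℕ} {p : Multiset G} (h : Filt fl p) (φ : V ≃+ V) :
    Filt fl (p.map (Phi φ)) := by
  rcases h with h | ⟨k, hk, e, h1, T, h2, h3, h4⟩
  · exact Or.inl h
  · refine Or.inr ⟨k, hk, e, h1, T.map (Phi φ), Multiset.map_le_map h2, ?_, ?_⟩
    · rw [Multiset.card_map, h3]
    · rw [Phi_sum, h4]; simp

theorem Sol.aut {FE FO : List ℕ} (φ : V ≃+ V) : ∀ (l : List Ph) (p : Multiset G),
    Sol FE FO l p → Sol FE FO l (p.map (Phi φ)) := by
  intro l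
  induction l with
  | nil => intro p h; exact not_bad_aut h φ
  | cons q l ih =>
    rintro p ⟨M, h1, h2, h3, h4⟩
    refine ⟨M.map φ, by rw [Multiset.card_map, h1], fun h => (h2 h).map φ.injective, ?_, ?_⟩
    · rw [← reps_map, ← Multiset.map_add]
      exact h3.aut φ
    · rw [← reps_map, ← Multiset.map_add]
      exact ih _ h4

theorem Sol.not_bad {FE FO : List ℕ} : ∀ (l : List Ph) (p : Multiset G),
    Sol FE FO l p → ¬ Bad FE FO p := by
  intro l
  induction l with
  | nil => intro p h; exact h
  | cons q l ih =>
    rintro p ⟨M, h1, h2, h3, h4⟩ h5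
    exact ih _ h4 (h5.mono (Multiset.le_add_right _ _))

/-- the masks of the phase are those of the forbidden lengths -/
def PhOK (FE FO : List ℕ) (q : Ph) : Prop :=
  q.Ma = mask (cond q.e FO FE) 0 ∧ q.Mb = mask (cond q.e FE FO) 1

theorem run_sound {FE FO : List ℕ} (hFE : ∀ k ∈ FE, 1 ≤ k ∧ k ≤ 14)
    (hFO : ∀ k ∈ FO, 1 ≤ k ∧ k ≤ 14) : ∀ l : List Ph, (∀ q ∈ l, PhOK FE FO q) →
    ∀ (s P : ℕ) (p : Multiset G), Rep s p → PP P p → run l s P = true → ¬ Sol FE FO l p := by
  intro l
  induction l with
  | nil =>
    intro _ s P p _ _ h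
    exact absurd h (by simp [run])
  | cons q l ih =>
    intro hl s P p hs hP h
    have hq := hl q (by simp)
    have ih' := ih (fun q' hq' => hl q' (by simp [hq']))
    set kk : ℕ → ℕ → Bool := fun s P => Nat.rec (motive := fun _ => Bool) (run l s P)
        (fun _ _ => Nat.rec (motive := fun _ => Bool) true (fun _ _ => run l s P)
          (Nat.land s q.fl)) q.fl with hkk
    have e : run (q :: l) s P = phS q.e q.dbl q.str q.Ma q.Mb kk q.cnt s P (rng 0 P) := rfl
    rw [e] at h
    rintro ⟨M, h1, h2, h3, h4⟩
    have hP' := hP
    obtain ⟨d, hd, hPd, _⟩ := hP'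
    have hP81 : P ≤ 81 ∧ 0 < P := by
      rw [hPd]
      interval_cases d <;> norm_num
    have htb' := tb_rng (lo := 0) (P := P) (Nat.zero_le _)
    refine phS_sound hFE hFO hq.1 hq.2 (K := fun p => Filt q.fl p ∧ Sol FE FO l p)
      (k := kk) ?_ ?_ ?_ q.cnt s P (rng 0 P) p hs hP ?_ h M h1 h2 ?_ ⟨h3, h4⟩
    · rintro s P p hs hP hkt ⟨hf, hsol⟩
      rcases hf with hf | ⟨k, hk, e, h5, T, h6, h7, h8⟩
      · have : kk s P = run l s P := by
          simp only [hkk, hf]
          rfl
        rw [this] at hkt
        exact ih' s P p hs hP hkt hsol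
      · have h9 : Nat.testBit s (pos k e 0) = true := by
          rw [hs k hk]
          exact ⟨T, h6, h7, by rw [h8, neg_zero]⟩
        have h10 : s &&& q.fl ≠ 0 := by
          intro h11
          have h12 : Nat.testBit (s &&& q.fl) (pos k e 0) = true := by
            rw [Nat.testBit_and, h9, h5, Nat.testBit_two_pow_self]
            rfl
          rw [h11] at h12
          simp at h12
        have h13 : q.fl ≠ 0 := by rw [h5]; positivity
        obtain ⟨a, ha⟩ := Nat.exists_eq_succ_of_ne_zero h10
        obtain ⟨b, hb⟩ := Nat.exists_eq_succ_of_ne_zero h13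
        have : kk s P = run l s P := by
          have e2 : kk s P = Nat.rec (motive := fun _ => Bool) (run l s P)
            (fun _ _ => Nat.rec (motive := fun _ => Bool) true (fun _ _ => run l s P)
            (s &&& q.fl)) q.fl := rfl
          rw [e2, ha, hb]
        rw [this] at hkt
        exact ih' s P p hs hP hkt hsol
    · rintro φ p ⟨hf, hsol⟩
      exact ⟨hf.aut φ, hsol.aut φ⟩
    · rintro p ⟨_, hsol⟩
      exact hsol.not_bad
    · intro i hi
      rw [htb']
      have : ¬ (i < P + 1 - P / 81) := by
        rcases Nat.lt_or_ge P 81 with h5 | h5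
        · omega
        · have : P = 81 := by omega
          subst this
          omega
      simp [this]
    · intro v _
      have hv := code_lt v
      constructor
      · intro hvP
        rw [htb']
        have : code v < P + 1 - P / 81 := by
          rcases Nat.lt_or_ge P 81 with h5 | h5
          · rw [Nat.div_eq_of_lt h5]; omega
          · have : P = 81 := by omega
            subst this
            omega
        simp [this]
      · intro hvP
        rw [htb']
        have h5 : P < 81 := by omega
        have : P < P + 1 - P / 81 := by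
          rw [Nat.div_eq_of_lt h5]; omega
        simp [this]

theorem st0_eq : st0 = 2 ^ 324 := by decide +kernel

theorem rep_st0 : Rep st0 0 := by
  intro k hk e w
  have he : e.val < 2 := ZMod.val_lt e
  have hc := code_lt w
  rw [st0_eq, Nat.testBit_two_pow, decide_eq_true_eq]
  constructor
  · intro h
    unfold pos at h
    have h1 : k = 0 := by omega
    have h2 : e.val = 0 := by omega
    have h3 : code w = code 0 := by rw [code_zero]; omega
    refine ⟨0, le_rfl, by simp [h1], ?_⟩
    rw [code_inj h3, Multiset.sum_zero, neg_zero]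
    apply Prod.ext
    · rfl
    · exact ((ZMod.val_eq_zero e).1 h2).symm
  · rintro ⟨T, h1, h2, h3⟩
    have h4 : T = 0 := Multiset.le_zero.1 h1
    rw [h4] at h2 h3
    rw [Multiset.sum_zero] at h3
    have h5 : w = 0 := by
      have := congrArg Prod.fst h3
      simp only [Prod.fst_zero] at this
      exact neg_eq_zero.1 this.symm
    have h6 : e = 0 := (congrArg Prod.snd h3).symm
    rw [← h2, h5, h6]
    have h7 : (0 : ZMod 2).val = 0 := rfl
    unfold pos
    rw [code_zero, h7, Multiset.card_zero]

theorem pp_zero : PP 1 0 := ⟨0, by norm_num, by norm_num, by simp⟩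

/-- a successful evaluation excludes solutions -/
theorem no_sol {FE FO : List ℕ} (hFE : ∀ k ∈ FE, 1 ≤ k ∧ k ≤ 14)
    (hFO : ∀ k ∈ FO, 1 ≤ k ∧ k ≤ 14) {l : List Ph} (hl : ∀ q ∈ l, PhOK FE FO q)
    (h : run l st0 1 = true) : ¬ Sol FE FO l 0 :=
  run_sound hFE hFO l hl st0 1 0 rep_st0 pp_zero h

end Pool.Agent.Q152.C0
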